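import Mathlib

/-!
# The octahedron shows that the symmetric flatness constant in dimension three is at least 3
-/

namespace Pool.Agent.Helper15.SF

/-- The octahedron with centre `(1/2, 1/2, 1/2)` and radius `3/2`. -/
def oct : Set (Fin 3 → ℝ) := {x | ∑ i, |x i - 1 / 2| ≤ 3 / 2}

theorem oct_compact : IsCompact oct := by
  have hcl : IsClosed oct := by
    apply isClosed_le
    · exact continuous_finsetSum _ fun i _ => ((continuous_apply i).sub continuous_const).abs
    · exact continuous_const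
  apply IsCompact.of_isClosed_subset (isCompact_Icc (a := fun _ : Fin 3 => (-1 : ℝ))
    (b := fun _ : Fin 3 => (2 : ℝ))) hcl
  intro x hx
  have hx' : |x 0 - 1 / 2| + |x 1 - 1 / 2| + |x 2 - 1 / 2| ≤ 3 / 2 := by
    have := hx
    simpa [oct, Fin.sum_univ_three] using this
  have h0 := abs_nonneg (x 0 - 1 / 2)
  have h1 := abs_nonneg (x 1 - 1 / 2)
  have h2 := abs_nonneg (x 2 - 1 / 2)
  have a0 : |x 0 - 1 / 2| ≤ 3 / 2 := by linarith
  have a1 : |x 1 - 1 / 2| ≤ 3 / 2 := by linarith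
  have a2 : |x 2 - 1 / 2| ≤ 3 / 2 := by linarith
  rw [abs_le] at a0 a1 a2
  refine ⟨fun i => ?_, fun i => ?_⟩ <;> fin_cases i <;> simp <;> linarith

theorem oct_convex : Convex ℝ oct := by
  intro x hx y hy a b ha hb hab
  have hx' : ∑ i, |x i - 1 / 2| ≤ 3 / 2 := hx
  have hy' : ∑ i, |y i - 1 / 2| ≤ 3 / 2 := hy
  show ∑ i, |(a • x + b • y) i - 1 / 2| ≤ 3 / 2
  calc ∑ i, |(a • x + b • y) i - 1 / 2|
      ≤ ∑ i, (a * |x i - 1 / 2| + b * |y i - 1 / 2|) := by
        apply Finset.sum_le_sum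
        intro i _
        have : (a • x + b • y) i - 1 / 2 = a * (x i - 1 / 2) + b * (y i - 1 / 2) := by
          simp only [Pi.add_apply, Pi.smul_apply, smul_eq_mul]
          linear_combination (1 / 2 : ℝ) * hab
        rw [this]
        calc |a * (x i - 1 / 2) + b * (y i - 1 / 2)|
            ≤ |a * (x i - 1 / 2)| + |b * (y i - 1 / 2)| := abs_add_le _ _
          _ = a * |x i - 1 / 2| + b * |y i - 1 / 2| := by
            rw [abs_mul, abs_mul, abs_of_nonneg ha, abs_of_nonneg hb]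
    _ = a * ∑ i, |x i - 1 / 2| + b * ∑ i, |y i - 1 / 2| := by
        rw [Finset.sum_add_distrib, Finset.mul_sum, Finset.mul_sum]
    _ ≤ a * (3 / 2) + b * (3 / 2) := by gcongr
    _ = 3 / 2 := by rw [← add_mul, hab, one_mul]

theorem oct_symm : ∀ x ∈ oct, (fun i => 1 - x i) ∈ oct := by
  intro x hx
  have hx' : ∑ i, |x i - 1 / 2| ≤ 3 / 2 := hx
  show ∑ i, |(1 - x i) - 1 / 2| ≤ 3 / 2
  have : ∀ i, |(1 - x i) - 1 / 2| = |x i - 1 / 2| := fun i => by
    rw [← abs_neg]; congr 1; ring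
  simpa only [this] using hx'

theorem oct_interior : (interior oct).Nonempty := by
  have hop : IsOpen {x : Fin 3 → ℝ | ∑ i, |x i - 1 / 2| < 3 / 2} := by
    apply isOpen_lt
    · exact continuous_finsetSum _ fun i _ => ((continuous_apply i).sub continuous_const).abs
    · exact continuous_const
  refine ⟨fun _ => 1 / 2, mem_interior.2 ⟨_, ?_, hop, ?_⟩⟩
  · intro x hx
    have hx' : ∑ i, |x i - 1 / 2| < 3 / 2 := hx
    exact le_of_lt hx'
  · show ∑ i : Fin 3, |(1 / 2 : ℝ) - 1 / 2| < 3 / 2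
    simp

theorem half_le_abs (m : ℤ) : (1 / 2 : ℝ) ≤ |(m : ℝ) - 1 / 2| := by
  rcases le_or_gt m 0 with h | h
  · have : (m : ℝ) ≤ 0 := by exact_mod_cast h
    rw [abs_of_nonpos (by linarith)]; linarith
  · have : (1 : ℝ) ≤ m := by exact_mod_cast h
    rw [abs_of_nonneg (by linarith)]; linarith

theorem oct_free (z : Fin 3 → ℤ) : (fun i => (z i : ℝ)) ∉ interior oct := by
  intro hz
  rw [mem_interior_iff_mem_nhds, Metric.mem_nhds_iff] at hz
  obtain ⟨ε, hε, hball⟩ := hz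
  have key : ∀ i, ∃ s : ℝ, |s| ≤ ε / 2 ∧ 1 / 2 + ε / 2 ≤ |(z i : ℝ) + s - 1 / 2| := by
    intro i
    rcases le_or_gt (z i) 0 with h | h
    · have h' : (z i : ℝ) ≤ 0 := by exact_mod_cast h
      refine ⟨-(ε / 2), ?_, ?_⟩
      · rw [abs_neg, abs_of_pos (by linarith)]
      · rw [abs_of_nonpos (by linarith)]; linarith
    · have h' : (1 : ℝ) ≤ z i := by exact_mod_cast h
      refine ⟨ε / 2, ?_, ?_⟩
      · rw [abs_of_pos (by linarith)]
      · rw [abs_of_nonneg (by linarith)]; linarith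
  choose s hs hs' using key
  have hmem : (fun i => (z i : ℝ) + s i) ∈ oct := by
    apply hball
    rw [Metric.mem_ball, dist_pi_lt_iff hε]
    intro i
    rw [Real.dist_eq]
    have : (z i : ℝ) + s i - z i = s i := by ring
    rw [this]
    have := hs i
    linarith
  have h1 : ∑ i, |(z i : ℝ) + s i - 1 / 2| ≤ 3 / 2 := hmem
  have h2 : ∑ i : Fin 3, (1 / 2 + ε / 2) ≤ ∑ i, |(z i : ℝ) + s i - 1 / 2| :=
    Finset.sum_le_sum fun i _ => hs' i
  simp only [Finset.sum_const, Finset.card_univ, Fintype.card_fin, nsmul_eq_mul] at h2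
  push_cast at h2
  linarith

theorem oct_width (y : Fin 3 → ℤ) (hy : y ≠ 0) :
    ∃ x ∈ oct, ∃ x' ∈ oct, 3 ≤ ∑ i, (x i - x' i) * (y i : ℝ) := by
  obtain ⟨k, hk⟩ : ∃ k, y k ≠ 0 := by
    by_contra hcon
    push Not at hcon
    exact hy (funext hcon)
  obtain ⟨σ, hσ, hσy⟩ : ∃ σ : ℝ, |σ| = 1 ∧ 1 ≤ σ * (y k : ℝ) := by
    rcases lt_or_gt_of_ne hk with h | h
    · have : (y k : ℝ) ≤ -1 := by exact_mod_cast Int.le_sub_one_of_lt h
      exact ⟨-1, by simp, by linarith⟩
    · have : (1 : ℝ) ≤ y k := by exact_mod_cast h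
      exact ⟨1, by simp, by linarith⟩
  have hmem : ∀ τ : ℝ, |τ| = 1 →
      (fun i => 1 / 2 + (if i = k then τ * (3 / 2) else 0)) ∈ oct := by
    intro τ hτ
    show ∑ i, |(1 / 2 + (if i = k then τ * (3 / 2) else 0)) - 1 / 2| ≤ 3 / 2
    have : ∀ i : Fin 3, |(1 / 2 + (if i = k then τ * (3 / 2) else 0)) - 1 / 2| =
        if i = k then (3 / 2 : ℝ) else 0 := by
      intro i
      rw [add_sub_cancel_left]
      split_ifs
      · rw [abs_mul, hτ]; norm_num
      · simp
    simp only [this, Finset.sum_ite_eq', Finset.mem_univ, if_true]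
    exact le_refl _
  refine ⟨_, hmem σ hσ, _, hmem (-σ) (by rw [abs_neg, hσ]), ?_⟩
  have : ∀ i : Fin 3, ((1 / 2 + (if i = k then σ * (3 / 2) else 0)) -
      (1 / 2 + (if i = k then -σ * (3 / 2) else 0))) * (y i : ℝ) =
      if i = k then 3 * (σ * (y k : ℝ)) else 0 := by
    intro i
    split_ifs with h
    · subst h; ring
    · ring
  simp only [this, Finset.sum_ite_eq', Finset.mem_univ, if_true]
  linarith

end Pool.Agent.Helper15.SF
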