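import Mathlib
import Pool.Agent.Helper84.FL.Labels
import Pool.Agent.Helper22.Sym.Core

/-!
# Kuhn's triangulation with vector labels

For a lattice-free convex body `K` and a superbase `f` there are four lattice points, the vertices
of a simplex of the Kuhn triangulation of `f`, and four normals with sum zero such that the normal
at each vertex separates the vertex from `K`.
-/

set_option autoImplicit false

namespace Pool.Agent.Helper15.SF

open Matrix Pool.Agent.Helper84.FL Pool.Agent.Helper22.Sym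

theorem dotProduct_self_nonneg_three (y : Fin 3 → ℝ) : 0 ≤ y ⬝ᵥ y := by
  unfold dotProduct
  exact Finset.sum_nonneg (fun i _ => mul_self_nonneg _)

theorem kv_inj (z : Fin 3 → ℤ) (π : Equiv.Perm (Fin 3)) (a b : ℕ) (ha : a ≤ 3) (hb : b ≤ 3)
    (h : kv z π a = kv z π b) : a = b := by
  by_contra hne
  wlog hab : a < b generalizing a b
  · exact this b a hb ha h.symm (fun e => hne e.symm) (by omega)
  have h1 := congrFun h (π ⟨a, by omega⟩)
  unfold kv at h1
  rw [Equiv.symm_apply_apply] at h1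
  rw [if_neg (by simp), if_pos (by simpa using hab)] at h1
  omega

/-- Poincaré–Miranda on the Kuhn triangulation with vector labels. -/
theorem kuhn_vec (M : ℕ) (h : (Fin 3 → ℤ) → Fin 3 → ℝ)
    (hhi : ∀ z : Fin 3 → ℤ, (∀ i, |z i| ≤ M) → ∀ i, z i = M → 0 ≤ h z i)
    (hlo : ∀ z : Fin 3 → ℤ, (∀ i, |z i| ≤ M) → ∀ i, z i = -M → h z i ≤ 0) :
    ∃ (z : Fin 3 → ℤ) (π : Equiv.Perm (Fin 3)) (w : Fin 4 → ℝ), (∀ k, 0 ≤ w k) ∧
      (∃ k, 0 < w k) ∧ (∀ k, 0 < w k → ∀ i, |kv z π k i| ≤ M) ∧
      ∀ i, ∑ k : Fin 4, w k * h (kv z π k) i = 0 := by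
  classical
  set box : Finset (Fin 3 → ℤ) := Finset.Icc (fun _ => -(M : ℤ)) (fun _ => (M : ℤ)) with hbox
  have hmem : ∀ v, v ∈ box ↔ ∀ i, -(M : ℤ) ≤ v i ∧ v i ≤ M := by
    intro v
    rw [hbox, Finset.mem_Icc, Pi.le_def, Pi.le_def]
    exact ⟨fun h i => ⟨h.1 i, h.2 i⟩, fun h => ⟨fun i => (h i).1, fun i => (h i).2⟩⟩
  have habs : ∀ v ∈ box, ∀ i, |v i| ≤ (M : ℤ) := by
    intro v hv i
    rw [abs_le]
    exact (hmem v).1 hv i
  let F : (Fin 3 → ℝ) → (Fin 3 → ℝ) := fun x i => ∑ v ∈ box, kuhnPhi v x * h v i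
  have hF : Continuous F := by
    refine continuous_pi (fun i => ?_)
    refine continuous_finsetSum _ (fun v _ => ?_)
    exact (kuhnPhi_cont v).mul continuous_const
  have hab : (fun _ : Fin 3 => -(M : ℝ)) ≤ (fun _ => (M : ℝ)) := by
    intro i
    have : (0 : ℝ) ≤ (M : ℝ) := Nat.cast_nonneg M
    show -(M : ℝ) ≤ (M : ℝ)
    linarith
  obtain ⟨x, hx, hx0⟩ := Pool.Agent.Helper52.Brouwer.poincare_miranda _ _ hab F hF.continuousOn
    (by
      intro x hx i hi
      refine Finset.sum_nonpos (fun v hv => ?_)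
      by_cases hp : 0 < kuhnPhi v x
      · obtain ⟨t, ht0, ht1, ht⟩ := kuhnPhi_pos hp
        have hvi : v i = -(M : ℤ) := by
          have h1 := (ht i).1
          have h2 := ((hmem v).1 hv i).1
          rw [hi] at h1
          have h3 : (v i : ℝ) < ((-(M : ℤ) + 1 : ℤ) : ℝ) := by push_cast; linarith
          have h4 : v i < -(M : ℤ) + 1 := by exact_mod_cast h3
          omega
        exact mul_nonpos_of_nonneg_of_nonpos hp.le (hlo v (habs v hv) i hvi)
      · have : kuhnPhi v x = 0 := le_antisymm (not_lt.1 hp) (kuhnPhi_nonneg v x)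
        rw [this, zero_mul])
    (by
      intro x hx i hi
      refine Finset.sum_nonneg (fun v hv => ?_)
      by_cases hp : 0 < kuhnPhi v x
      · obtain ⟨t, ht0, ht1, ht⟩ := kuhnPhi_pos hp
        have hvi : v i = (M : ℤ) := by
          have h1 := (ht i).2
          have h2 := ((hmem v).1 hv i).2
          rw [hi] at h1
          have h3 : ((M : ℤ) : ℝ) < ((v i + 1 : ℤ) : ℝ) := by push_cast; linarith
          have h4 : (M : ℤ) < v i + 1 := by exact_mod_cast h3
          omega
        exact mul_nonneg hp.le (hhi v (habs v hv) i hvi)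
      · have : kuhnPhi v x = 0 := le_antisymm (not_lt.1 hp) (kuhnPhi_nonneg v x)
        rw [this, zero_mul])
  have hfl : (fun i => ⌊x i⌋) ∈ box := by
    rw [hmem]
    intro i
    have a1 := hx.1 i
    have a2 := hx.2 i
    simp only at a1 a2
    constructor
    · rw [Int.le_floor]
      push_cast
      exact a1
    · have h3 : ((⌊x i⌋ : ℤ) : ℝ) ≤ ((M : ℤ) : ℝ) := by
        push_cast
        exact (Int.floor_le _).trans a2
      exact_mod_cast h3
  obtain ⟨π, hπ⟩ := kuhn_chain x
  set z : Fin 3 → ℤ := fun i => ⌊x i⌋ with hz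
  let w : Fin 4 → ℝ := fun k => if kv z π k ∈ box then kuhnPhi (kv z π k) x else 0
  have hk0 : kv z π 0 = z := by
    funext i
    simp [kv]
  refine ⟨z, π, w, ?_, ⟨0, ?_⟩, ?_, ?_⟩
  · intro k
    simp only [w]
    split_ifs
    · exact kuhnPhi_nonneg _ _
    · exact le_rfl
  · simp only [w]
    have e : ((0 : Fin 4) : ℕ) = 0 := rfl
    rw [e, hk0, if_pos hfl]
    exact kuhnPhi_floor x
  · intro k hk
    simp only [w] at hk
    by_cases hb : kv z π k ∈ box
    · exact habs _ hb
    · rw [if_neg hb] at hk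
      exact absurd hk (lt_irrefl _)
  · intro i
    have h1 : ∑ v ∈ box, kuhnPhi v x * h v i = 0 := by
      have : F x i = 0 := by rw [hx0]; rfl
      exact this
    let e : Fin 4 → (Fin 3 → ℤ) := fun k => kv z π k
    have he : Function.Injective e := by
      intro a b hab
      exact Fin.ext (kv_inj z π a b (by omega) (by omega) hab)
    have h2 : ∑ v ∈ box, kuhnPhi v x * h v i
        = ∑ v ∈ box.filter (fun v => ∃ k : Fin 4, e k = v), kuhnPhi v x * h v i := by
      rw [Finset.sum_filter]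
      refine Finset.sum_congr rfl (fun v hv => ?_)
      by_cases hex : ∃ k : Fin 4, e k = v
      · rw [if_pos hex]
      · rw [if_neg hex]
        by_cases hp : 0 < kuhnPhi v x
        · exfalso
          apply hex
          obtain ⟨t, ht0, ht1, ht⟩ := kuhnPhi_pos hp
          obtain ⟨k, hk, hkv⟩ := hπ t ht0 ht1
          refine ⟨⟨k, by omega⟩, ?_⟩
          show kv z π k = v
          rw [hkv]
          funext i
          rw [Int.floor_eq_iff]
          exact ht i
        · have : kuhnPhi v x = 0 := le_antisymm (not_lt.1 hp) (kuhnPhi_nonneg v x)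
          rw [this, zero_mul]
    have h3 : box.filter (fun v => ∃ k : Fin 4, e k = v)
        = (Finset.univ.filter (fun k => e k ∈ box)).image e := by
      ext v
      simp only [Finset.mem_filter, Finset.mem_image, Finset.mem_univ, true_and]
      constructor
      · rintro ⟨hv, k, hk⟩
        exact ⟨k, by rw [hk]; exact hv, hk⟩
      · rintro ⟨k, hk, hk2⟩
        exact ⟨by rw [← hk2]; exact hk, k, hk2⟩
    rw [h2, h3, Finset.sum_image (fun a _ b _ hab => he hab), Finset.sum_filter] at h1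
    rw [← h1]
    refine Finset.sum_congr rfl (fun k _ => ?_)
    simp only [w, e]
    split_ifs
    · rfl
    · rw [zero_mul]

/-- A vector orthogonal to the superbase is zero. -/
theorem eq_zero_of_orth (f g : Fin 4 → Fin 3 → ℤ) (hfg : Superb f g) (u : Fin 3 → ℝ)
    (h : ∀ i : Fin 3, u ⬝ᵥ toR (f i.castSucc) = 0) : u = 0 := by
  have h3 : u ⬝ᵥ toR (f 3) = 0 := by
    have h1 : ∑ l, toR (f l) = 0 := by
      funext k
      have := congrFun hfg.1 k
      simp only [Finset.sum_apply, Pi.zero_apply, toR] at this ⊢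
      exact_mod_cast this
    have h2 : u ⬝ᵥ ∑ l, toR (f l) = 0 := by rw [h1]; simp
    rw [dotProduct_sum, Fin.sum_univ_four] at h2
    have a0 := h 0
    have a1 := h 1
    have a2 := h 2
    have c0 : (Fin.castSucc (0 : Fin 3)) = (0 : Fin 4) := rfl
    have c1 : (Fin.castSucc (1 : Fin 3)) = (1 : Fin 4) := rfl
    have c2 : (Fin.castSucc (2 : Fin 3)) = (2 : Fin 4) := rfl
    rw [c0] at a0
    rw [c1] at a1
    rw [c2] at a2
    linarith
  have hall : ∀ l : Fin 4, u ⬝ᵥ toR (f l) = 0 := by
    intro l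
    rcases Fin.eq_castSucc_or_eq_last l with ⟨i, rfl⟩ | rfl
    · exact h i
    · exact h3
  have h4 : u ⬝ᵥ u = 0 := by
    conv_lhs => rw [← repr_vec f g hfg u]
    rw [sum_dotProduct]
    refine Finset.sum_eq_zero (fun l _ => ?_)
    rw [smul_dotProduct, repr_vec f g hfg u, dotProduct_comm (toR (f l)) u, hall l, smul_zero]
  exact dotProduct_self_eq_zero.mp h4

theorem toR_labE (f : Fin 4 → Fin 3 → ℤ) (z : Fin 3 → ℤ) :
    toR (labE f z) = ∑ i : Fin 3, (z i : ℝ) • toR (f i.castSucc) := by
  funext k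
  unfold labE toR
  rw [Finset.sum_apply, Finset.sum_apply, Fin.sum_univ_castSucc]
  have h4 : (Fin.last 3 : Fin 4) = 3 := rfl
  simp only [labC_castSucc, h4, labC_three, Pi.smul_apply, smul_eq_mul, zero_mul, add_zero]
  push_cast
  rfl

/-- **Kuhn–Sperner with normals.** -/
theorem kuhn_chain_v (f g : Fin 4 → Fin 3 → ℤ) (hfg : Superb f g) (K : Set (Fin 3 → ℝ))
    (hK : IsCompact K) (hcv : Convex ℝ K) (hint : (interior K).Nonempty)
    (hfree : ∀ z : Fin 3 → ℤ, toR z ∉ interior K) :
    ∃ (σ : Equiv.Perm (Fin 4)) (p : Fin 4 → Fin 3 → ℤ) (v : Fin 4 → Fin 3 → ℝ),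
      (∀ k, p (k + 1) = p k + f (σ k)) ∧ ∑ k, v k = 0 ∧
      ∑ k, v k ⬝ᵥ toR (p k) = 1 ∧ ∀ k, ∀ x ∈ K, v k ⬝ᵥ x ≤ v k ⬝ᵥ toR (p k) := by
  classical
  -- separation
  have hsep : ∀ z : Fin 3 → ℤ, ∃ n : Fin 3 → ℝ, n ≠ 0 ∧ ∀ x ∈ K, n ⬝ᵥ x ≤ n ⬝ᵥ toR z := by
    intro z
    obtain ⟨φ, hφ⟩ := geometric_hahn_banach_open_point hcv.interior isOpen_interior (hfree z)
    have hφn : ∀ x : Fin 3 → ℝ, φ x = (fun k => φ (Pi.single k 1)) ⬝ᵥ x := by
      intro x
      have h1 := φ.toLinearMap.pi_apply_eq_sum_univ x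
      have h2 : φ x = ∑ i, x i • φ (fun j => if i = j then (1 : ℝ) else 0) := h1
      rw [h2]
      simp only [dotProduct, smul_eq_mul]
      refine Finset.sum_congr rfl (fun i _ => ?_)
      have h3 : (fun j => if i = j then (1 : ℝ) else 0) = Pi.single i 1 := by
        funext j
        rw [Pi.single_apply]
        simp only [eq_comm]
      rw [h3, mul_comm]
    refine ⟨fun k => φ (Pi.single k 1), ?_, ?_⟩
    · intro h0
      obtain ⟨x0, hx0⟩ := hint
      have h1 := hφ x0 hx0
      rw [hφn, hφn, h0] at h1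
      simp at h1
    · intro x hx
      rw [← hφn, ← hφn]
      have hcl : x ∈ closure (interior K) := by
        rw [hcv.closure_interior_eq_closure_of_nonempty_interior hint]
        exact subset_closure hx
      have hclosed : IsClosed {y : Fin 3 → ℝ | φ y ≤ φ (toR z)} :=
        isClosed_le φ.continuous continuous_const
      exact closure_minimal (fun y hy => (hφ y hy).le) hclosed hcl
  -- the bound
  obtain ⟨R0, hR0⟩ := (Metric.isBounded_iff_subset_closedBall 0).mp hK.isBounded
  let d : Fin 3 → Fin 3 → ℝ := fun i => toR (g i.castSucc) - toR (g 3)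
  have hd : ∀ i l : Fin 3, d i ⬝ᵥ toR (f l.castSucc) = if i = l then 1 else 0 := by
    intro i l
    have h1 := hfg.2 i.castSucc 3 l.castSucc
    have h3 : (3 : Fin 4) ≠ l.castSucc := by
      intro h; have := congrArg Fin.val h; simp at this; omega
    rw [if_neg h3, sub_zero] at h1
    have h2 : d i ⬝ᵥ toR (f l.castSucc) = (((g i.castSucc - g 3) ⬝ᵥ f l.castSucc : ℤ) : ℝ) := by
      simp only [d, dotProduct, toR, Pi.sub_apply]
      push_cast
      rfl
    rw [h2, h1]
    simp only [Fin.castSucc_inj]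
    push_cast
    rfl
  obtain ⟨M, hM⟩ := exists_nat_ge (1 + ∑ i : Fin 3, ∑ k : Fin 3, |d i k| * |R0|)
  have hC0 : 0 ≤ ∑ i : Fin 3, ∑ k : Fin 3, |d i k| * |R0| := by positivity
  have hM1 : (1 : ℝ) ≤ M := by linarith
  have hMpos : 0 < M := by
    have : (1 : ℕ) ≤ M := by exact_mod_cast hM1
    omega
  have hdx : ∀ x ∈ K, ∀ i, |d i ⬝ᵥ x| ≤ ∑ k : Fin 3, |d i k| * |R0| := by
    intro x hx i
    have h1 : ‖x‖ ≤ R0 := by
      have := hR0 hx
      rwa [mem_closedBall_zero_iff] at this
    unfold dotProduct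
    refine (Finset.abs_sum_le_sum_abs _ _).trans (Finset.sum_le_sum (fun k _ => ?_))
    rw [abs_mul]
    refine mul_le_mul_of_nonneg_left ?_ (abs_nonneg _)
    have h2 := norm_le_pi_norm x k
    rw [Real.norm_eq_abs] at h2
    exact (h2.trans h1).trans (le_abs_self R0)
  -- normals
  have hnor : ∀ z : Fin 3 → ℤ, ∃ n : Fin 3 → ℝ, (∀ i, |z i| ≤ M) → (n ≠ 0 ∧
      (∀ x ∈ K, n ⬝ᵥ x ≤ n ⬝ᵥ toR (labE f z)) ∧
      (∀ i, z i = M → 0 ≤ n ⬝ᵥ toR (f i.castSucc)) ∧
      (∀ i, z i = -M → n ⬝ᵥ toR (f i.castSucc) ≤ 0)) := by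
    intro z
    by_cases hz : ∃ i, z i = M ∨ z i = -M
    · let ε : Fin 3 → ℝ := fun i => if z i = M then 1 else if z i = -M then -1 else 0
      have hε1 : ∀ i, |ε i| ≤ 1 := by
        intro i
        simp only [ε]
        split_ifs <;> norm_num
      have hεz : ∀ i, 0 ≤ ε i * (z i : ℝ) := by
        intro i
        simp only [ε]
        split_ifs with h1 h2
        · rw [h1]; push_cast; linarith
        · rw [h2]; push_cast; linarith
        · simp
      have hn : ∀ l : Fin 3, (∑ i, ε i • d i) ⬝ᵥ toR (f l.castSucc) = ε l := by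
        intro l
        rw [sum_dotProduct]
        simp only [smul_dotProduct, hd, smul_eq_mul, mul_ite, mul_one, mul_zero,
          Finset.sum_ite_eq', Finset.mem_univ, if_true]
      refine ⟨∑ i, ε i • d i, fun hzM => ⟨?_, ?_, ?_, ?_⟩⟩
      · intro h0
        obtain ⟨i, hi⟩ := hz
        have h1 := hn i
        rw [h0, zero_dotProduct] at h1
        simp only [ε] at h1
        rcases hi with hi | hi
        · rw [if_pos hi] at h1
          norm_num at h1
        · have h2 : ¬ z i = M := by omega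
          rw [if_neg h2, if_pos hi] at h1
          norm_num at h1
      · intro x hx
        have h1 : (∑ i, ε i • d i) ⬝ᵥ x ≤ ∑ i : Fin 3, ∑ k : Fin 3, |d i k| * |R0| := by
          rw [sum_dotProduct]
          refine Finset.sum_le_sum (fun i _ => ?_)
          rw [smul_dotProduct, smul_eq_mul]
          refine (le_abs_self _).trans ?_
          rw [abs_mul]
          calc |ε i| * |d i ⬝ᵥ x| ≤ 1 * |d i ⬝ᵥ x| :=
                mul_le_mul_of_nonneg_right (hε1 i) (abs_nonneg _)
            _ ≤ _ := by rw [one_mul]; exact hdx x hx i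
        have h2 : (M : ℝ) ≤ (∑ i, ε i • d i) ⬝ᵥ toR (labE f z) := by
          rw [toR_labE, dotProduct_sum]
          simp only [dotProduct_smul, smul_eq_mul, hn]
          obtain ⟨i, hi⟩ := hz
          have h3 : (M : ℝ) ≤ (z i : ℝ) * ε i := by
            simp only [ε]
            rcases hi with hi | hi
            · rw [if_pos hi, hi]; push_cast; linarith
            · have h2 : ¬ z i = M := by omega
              rw [if_neg h2, if_pos hi, hi]; push_cast; linarith
          refine h3.trans ?_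
          exact Finset.single_le_sum (f := fun i => (z i : ℝ) * ε i)
            (fun j _ => by rw [mul_comm]; exact hεz j) (Finset.mem_univ i)
        linarith
      · intro i hi
        rw [hn]
        simp only [ε]
        rw [if_pos hi]
        norm_num
      · intro i hi
        rw [hn]
        simp only [ε]
        have h2 : ¬ z i = M := by omega
        rw [if_neg h2, if_pos hi]
        norm_num
    · push Not at hz
      obtain ⟨n, hn, hx⟩ := hsep (labE f z)
      exact ⟨n, fun _ => ⟨hn, hx, fun i hi => absurd hi (hz i).1,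
        fun i hi => absurd hi (hz i).2⟩⟩
  choose n hn using hnor
  obtain ⟨z, π, w, hw0, ⟨k0, hk0⟩, hwM, hsum⟩ := kuhn_vec M
    (fun z i => n z ⬝ᵥ toR (f i.castSucc))
    (fun z hz i hi => (hn z hz).2.2.1 i hi) (fun z hz i hi => (hn z hz).2.2.2 i hi)
  -- the walk
  let s : Fin 4 → Fin 4 := fun k => if h : (k : ℕ) < 3 then (π ⟨k, h⟩).castSucc else 3
  have hs : Function.Injective s := by
    intro a b hab
    by_cases ha : (a : ℕ) < 3
    · by_cases hb : (b : ℕ) < 3
      · simp only [s, dif_pos ha, dif_pos hb] at hab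
        have h1 := π.injective (Fin.castSucc_injective 3 hab)
        exact Fin.ext (Fin.mk.inj_iff.mp h1)
      · simp only [s, dif_pos ha, dif_neg hb] at hab
        have h2 : ((π ⟨a, ha⟩).castSucc : ℕ) < 3 := (π ⟨a, ha⟩).2
        rw [hab] at h2
        exact absurd h2 (by decide)
    · by_cases hb : (b : ℕ) < 3
      · simp only [s, dif_neg ha, dif_pos hb] at hab
        have h2 : ((π ⟨b, hb⟩).castSucc : ℕ) < 3 := (π ⟨b, hb⟩).2
        rw [← hab] at h2
        exact absurd h2 (by decide)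
      · apply Fin.ext
        have := a.2
        have := b.2
        omega
  let p : Fin 4 → Fin 3 → ℤ := fun k => labE f (kv z π k)
  have hp : ∀ k, p (k + 1) = p k + f (s k) := by
    intro k
    by_cases hk : (k : ℕ) < 3
    · have h1 : ((k + 1 : Fin 4) : ℕ) = k + 1 := by
        rw [Fin.val_add]
        have h3 : ((1 : Fin 4) : ℕ) = 1 := rfl
        rw [h3]
        omega
      simp only [p, s, dif_pos hk]
      rw [h1]
      exact labE_kv f z π k hk
    · have h1 : k = 3 := by
        apply Fin.ext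
        have := k.2
        have h3 : ((3 : Fin 4) : ℕ) = 3 := rfl
        omega
      subst h1
      have h2 : labE f (kv z π 0) = labE f (kv z π 3) + f 3 := by
        have h1 : ∀ i, kv z π 0 i = z i := fun i => by simp [kv]
        have h2 : ∀ i, kv z π 3 i = z i + 1 := fun i => by
          unfold kv
          rw [if_pos (π.symm i).2]
        have h3 : labE f (kv z π 3) + f 3 = labE f (kv z π 0) + ∑ l, f l := by
          unfold labE
          rw [Fin.sum_univ_castSucc,
            Fin.sum_univ_castSucc (f := fun l => labC (kv z π 0) l • f l),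
            Fin.sum_univ_castSucc (f := f)]
          have h4 : (Fin.last 3 : Fin 4) = 3 := rfl
          simp only [labC_castSucc, h4, labC_three, h1, h2, add_smul, one_smul, zero_smul,
            Finset.sum_add_distrib]
          abel
        rw [h3, hfg.1, add_zero]
      exact h2
  let σ : Equiv.Perm (Fin 4) := Equiv.ofBijective s (Finite.injective_iff_bijective.mp hs)
  -- the vectors
  let v0 : Fin 4 → Fin 3 → ℝ := fun k => w k • n (kv z π k)
  have hv0sum : ∑ k, v0 k = 0 := by
    apply eq_zero_of_orth f g hfg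
    intro i
    rw [sum_dotProduct]
    simp only [v0, smul_dotProduct, smul_eq_mul]
    exact hsum i
  have hv0K : ∀ k, ∀ x ∈ K, v0 k ⬝ᵥ x ≤ v0 k ⬝ᵥ toR (p k) := by
    intro k x hx
    simp only [v0, smul_dotProduct, smul_eq_mul]
    rcases (hw0 k).lt_or_eq with hk | hk
    · exact mul_le_mul_of_nonneg_left ((hn _ (hwM k hk)).2.1 x hx) hk.le
    · rw [← hk, zero_mul, zero_mul]
  obtain ⟨x0, hx0⟩ := hint
  have hx0K : x0 ∈ K := interior_subset hx0
  have hstrict : v0 k0 ⬝ᵥ x0 < v0 k0 ⬝ᵥ toR (p k0) := by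
    have hnk := hn _ (hwM k0 hk0)
    have hvne : v0 k0 ≠ 0 := smul_ne_zero hk0.ne' hnk.1
    have hvv : 0 < v0 k0 ⬝ᵥ v0 k0 := by
      rcases (dotProduct_self_nonneg_three (v0 k0)).lt_or_eq with h | h
      · exact h
      · exact absurd (dotProduct_self_eq_zero.mp h.symm) hvne
    have hcont : Filter.Tendsto (fun t : ℝ => x0 + t • v0 k0) (nhds 0) (nhds x0) := by
      have : Continuous (fun t : ℝ => x0 + t • v0 k0) := by fun_prop
      have h := this.tendsto 0
      simpa using h
    have hev : ∀ᶠ t : ℝ in nhds 0, x0 + t • v0 k0 ∈ K :=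
      hcont.eventually (mem_interior_iff_mem_nhds.mp hx0)
    obtain ⟨δ, hδ, hball⟩ := Metric.eventually_nhds_iff.mp hev
    have h1 : x0 + (δ / 2) • v0 k0 ∈ K := by
      apply hball
      rw [Real.dist_eq, sub_zero, abs_of_pos (by linarith)]
      linarith
    have h2 := hv0K k0 _ h1
    rw [dotProduct_add, dotProduct_smul, smul_eq_mul] at h2
    nlinarith [mul_pos (half_pos hδ) hvv]
  have hR : 0 < ∑ k, v0 k ⬝ᵥ toR (p k) := by
    have h1 : ∑ k, v0 k ⬝ᵥ x0 = 0 := by
      rw [← sum_dotProduct, hv0sum, zero_dotProduct]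
    have h2 : ∑ k, v0 k ⬝ᵥ x0 < ∑ k, v0 k ⬝ᵥ toR (p k) :=
      Finset.sum_lt_sum (fun k _ => hv0K k x0 hx0K) ⟨k0, Finset.mem_univ _, hstrict⟩
    linarith
  set R := ∑ k, v0 k ⬝ᵥ toR (p k) with hRdef
  refine ⟨σ, p, fun k => R⁻¹ • v0 k, fun k => hp k, ?_, ?_, ?_⟩
  · rw [← Finset.smul_sum, hv0sum, smul_zero]
  · simp only [smul_dotProduct, smul_eq_mul]
    rw [← Finset.mul_sum, ← hRdef, inv_mul_cancel₀ hR.ne']
  · intro k x hx
    simp only [smul_dotProduct, smul_eq_mul]
    exact mul_le_mul_of_nonneg_left (hv0K k x hx) (inv_nonneg.mpr hR.le)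

end Pool.Agent.Helper15.SF
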