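import Mathlib

/-! The John ellipsoid `c + M (unit ball)` of a convex body `K` in dimension three (the one of largest
determinant), and the bound `|u - u'|² ≤ 6 (1 + s)` for `c + M u, c + M u' ∈ K` if `K` has asymmetry
at most `s` about the centre `c`.  No contact points: if `|u - u'|² > 6 (1 + s)` then the ellipsoid
`c + ε (1 + s) M (u + u') + M ((1 - ε κ) I + ε d dᵀ) (ball)`, `d = u - u'`, lies in `K` and is larger. -/

set_option autoImplicit false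

namespace Pool.Agent.Helper15.SF

open Matrix Filter Topology

theorem cs3 (a b : Fin 3 → ℝ) : (a ⬝ᵥ b) ^ 2 ≤ (a ⬝ᵥ a) * (b ⬝ᵥ b) := by
  simp only [dotProduct, Fin.sum_univ_three]
  nlinarith [sq_nonneg (a 0 * b 1 - a 1 * b 0), sq_nonneg (a 0 * b 2 - a 2 * b 0),
    sq_nonneg (a 1 * b 2 - a 2 * b 1)]

/-- the scalar inequality behind the variation -/
theorem scal (T t t' s ε κ δ D : ℝ) (hs : 0 < s) (hT : 1 < T) (hT2 : T ≤ 2) (h1 : t < T)
    (h2 : t' < T) (h3 : -(s * T) < t) (h4 : -(s * T) < t') (hκ : κ = 2 * (1 + s) + δ)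
    (hε : 0 < ε) (e1 : ε * ((1 + s) * (6 + 4 * s)) ≤ 1) (e2 : ε * (D ^ 2 / 4) ≤ δ) :
    1 + ε * ((1 + s) * (t + t') + (t - t') ^ 2 - κ) + ε ^ 2 * (D ^ 2 / 4) ≤ T := by
  have p1 : 0 ≤ (T - t) * (s * T + t) := mul_nonneg (by linarith) (by linarith)
  have p2 : 0 ≤ (T - t') * (s * T + t') := mul_nonneg (by linarith) (by linarith)
  have p3 : 0 ≤ (T - t) * (T - t') := mul_nonneg (by linarith) (by linarith)
  have hq : (t - t') ^ 2 ≤ 2 * (1 + s) * T ^ 2 - (1 + s) * T * (t + t') := by nlinarith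
  have hG : (1 + s) * (t + t') + (t - t') ^ 2 - κ
      ≤ (T - 1) * ((1 + s) * (6 + 4 * s)) - δ := by
    have h5 : (1 + s) * (t + t') + (t - t') ^ 2 - κ
        ≤ (T - 1) * ((1 + s) * (2 * (T + 1) - (t + t'))) - δ := by
      rw [hκ]; nlinarith
    have h6 : 2 * (T + 1) - (t + t') ≤ 6 + 4 * s := by nlinarith
    have h7 : (T - 1) * ((1 + s) * (2 * (T + 1) - (t + t')))
        ≤ (T - 1) * ((1 + s) * (6 + 4 * s)) := by
      apply mul_le_mul_of_nonneg_left _ (by linarith)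
      apply mul_le_mul_of_nonneg_left h6 (by linarith)
    linarith
  have h8 : ε * ((1 + s) * (t + t') + (t - t') ^ 2 - κ)
      ≤ ε * ((T - 1) * ((1 + s) * (6 + 4 * s)) - δ) := mul_le_mul_of_nonneg_left hG hε.le
  have h9 : ε * ((T - 1) * ((1 + s) * (6 + 4 * s))) ≤ T - 1 := by
    have : ε * ((T - 1) * ((1 + s) * (6 + 4 * s)))
        = (T - 1) * (ε * ((1 + s) * (6 + 4 * s))) := by ring
    rw [this]
    nlinarith
  have h10 : ε ^ 2 * (D ^ 2 / 4) ≤ ε * δ := by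
    have : ε ^ 2 * (D ^ 2 / 4) = ε * (ε * (D ^ 2 / 4)) := by ring
    rw [this]
    exact mul_le_mul_of_nonneg_left e2 hε.le
  nlinarith

/-- the support function of the varied ellipsoid -/
theorem normb (y d v : Fin 3 → ℝ) (ε κ : ℝ) (hy : y ⬝ᵥ y = 1) (hv : v ⬝ᵥ v ≤ 1)
    (hε : 0 < ε) (e3 : ε * κ ≤ 1 / 2) :
    ((1 - ε * κ) • y + (ε * (d ⬝ᵥ y)) • d) ⬝ᵥ v
      ≤ 1 + ε * ((d ⬝ᵥ y) ^ 2 - κ) + ε ^ 2 * ((d ⬝ᵥ d) ^ 2 / 4) := by
  set w := (1 - ε * κ) • y + (ε * (d ⬝ᵥ y)) • d with hw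
  set q := (d ⬝ᵥ y) ^ 2 with hq
  set D := d ⬝ᵥ d with hD
  have hq0 : 0 ≤ q := sq_nonneg _
  have hww : w ⬝ᵥ w = (1 - ε * κ) ^ 2 + 2 * ε * (1 - ε * κ) * q + ε ^ 2 * q * D := by
    rw [hw, hq, hD]
    have hy' : y 0 * y 0 + y 1 * y 1 + y 2 * y 2 = 1 := by
      rw [← hy]; simp only [dotProduct, Fin.sum_univ_three]
    simp only [dotProduct, Fin.sum_univ_three, Pi.add_apply, Pi.smul_apply, smul_eq_mul]
    linear_combination (1 - ε * κ) ^ 2 * hy'
  have hX : 1 / 2 ≤ 1 - ε * κ + ε * q := by nlinarith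
  have he : 0 ≤ ε ^ 2 * (D ^ 2 / 4) := by positivity
  have hle : w ⬝ᵥ w ≤ (1 - ε * κ + ε * q + ε ^ 2 * (D ^ 2 / 4)) ^ 2 := by
    rw [hww]
    nlinarith [sq_nonneg (ε * (q - D / 2)), mul_nonneg he (by linarith : (0:ℝ) ≤ 1 - ε * κ + ε * q - 1 / 2)]
  have hcs := cs3 w v
  by_contra hcon
  rw [not_le] at hcon
  have hww0 : 0 ≤ w ⬝ᵥ w := by
    simp only [dotProduct, Fin.sum_univ_three]; nlinarith [mul_self_nonneg (w 0), mul_self_nonneg (w 1), mul_self_nonneg (w 2)]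
  have h1 : (w ⬝ᵥ v) ^ 2 ≤ w ⬝ᵥ w := by nlinarith
  nlinarith

theorem amgm3 (y u : Fin 3 → ℝ) (hy : y ⬝ᵥ y = 1) : y ⬝ᵥ u ≤ (1 + u ⬝ᵥ u) / 2 := by
  rw [← hy]
  simp only [dotProduct, Fin.sum_univ_three]
  nlinarith [sq_nonneg (y 0 - u 0), sq_nonneg (y 1 - u 1), sq_nonneg (y 2 - u 2)]

theorem small_eps (X Y : ℝ) (hY : 0 < Y) : ∀ᶠ ε : ℝ in 𝓝[>] 0, ε * X < Y := by
  have h : Tendsto (fun ε : ℝ => ε * X) (𝓝[>] 0) (𝓝 0) := by
    have := (tendsto_id.mul_const X : Tendsto (fun ε : ℝ => ε * X) (𝓝 0) (𝓝 (0 * X)))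
    rw [zero_mul] at this
    exact this.mono_left nhdsWithin_le_nhds
  exact h.eventually (Iio_mem_nhds hY)

/-- the varied matrix -/
theorem det_var (d : Fin 3 → ℝ) (a b : ℝ) :
    (a • (1 : Matrix (Fin 3) (Fin 3) ℝ) + b • vecMulVec d d).det
      = a ^ 2 * (a + b * (d ⬝ᵥ d)) := by
  simp [Matrix.det_fin_three, vecMulVec, dotProduct, Fin.sum_univ_three]
  ring

theorem mulVec_var (d v : Fin 3 → ℝ) (a b : ℝ) :
    (a • (1 : Matrix (Fin 3) (Fin 3) ℝ) + b • vecMulVec d d) *ᵥ v = a • v + (b * (d ⬝ᵥ v)) • d := by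
  funext i
  fin_cases i <;> simp [Matrix.mulVec, vecMulVec, dotProduct, Fin.sum_univ_three] <;> ring

/-- **The John centre.** -/
theorem john_centre (K : Set (Fin 3 → ℝ)) (hK : IsCompact K) (hcv : Convex ℝ K)
    (c : Fin 3 → ℝ) (M : Matrix (Fin 3) (Fin 3) ℝ) (hM : M.det ≠ 0)
    (hball : ∀ v : Fin 3 → ℝ, v ⬝ᵥ v ≤ 1 → c + M *ᵥ v ∈ K)
    (hmax : ∀ (c' : Fin 3 → ℝ) (M' : Matrix (Fin 3) (Fin 3) ℝ),
      (∀ v : Fin 3 → ℝ, v ⬝ᵥ v ≤ 1 → c' + M' *ᵥ v ∈ K) → |M'.det| ≤ |M.det|)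
    (s : ℝ) (hs : 0 < s) (hsym : ∀ x ∈ K, c - s⁻¹ • (x - c) ∈ K)
    (u u' : Fin 3 → ℝ) (hu : c + M *ᵥ u ∈ K) (hu' : c + M *ᵥ u' ∈ K) :
    (u - u') ⬝ᵥ (u - u') ≤ 6 * (1 + s) := by
  by_contra hcon
  rw [not_le] at hcon
  set d := u - u' with hd
  set D := d ⬝ᵥ d with hD
  set δ := (D - 6 * (1 + s)) / 6 with hδ
  have hδ0 : 0 < δ := by rw [hδ]; linarith
  set κ := 2 * (1 + s) + δ with hκ
  have hκ0 : 0 < κ := by rw [hκ]; linarith
  -- choice of ε
  obtain ⟨ε, ⟨⟨⟨⟨⟨⟨⟨e1, e2⟩, e3⟩, e4⟩, e5⟩, e6⟩, e7⟩, hε⟩⟩ :=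
    (((((((small_eps ((1 + s) * (6 + 4 * s)) 1 one_pos).and (small_eps (D ^ 2 / 4) δ hδ0)).and
      (small_eps κ (1 / 2) (by norm_num))).and
      (small_eps ((1 + s) * (1 + (u ⬝ᵥ u + u' ⬝ᵥ u') / 2) + D) (1 / 2) (by norm_num))).and
      (small_eps (D ^ 2 / 4) (1 / 2) (by norm_num))).and (small_eps 1 1 one_pos)).and
      (small_eps (2 * κ * (D - κ)) (3 * δ) (by linarith))).and self_mem_nhdsWithin |>.exists
  have hε0 : 0 < ε := hε
  rw [mul_one] at e6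
  -- the varied ellipsoid lies in K
  have hnew : ∀ v : Fin 3 → ℝ, v ⬝ᵥ v ≤ 1 →
      (c + M *ᵥ ((ε * (1 + s)) • (u + u'))) +
        (M * ((1 - ε * κ) • (1 : Matrix (Fin 3) (Fin 3) ℝ) + ε • vecMulVec d d)) *ᵥ v ∈ K := by
    intro v hv
    rw [← Matrix.mulVec_mulVec, mulVec_var, add_assoc, ← Matrix.mulVec_add]
    set p := (ε * (1 + s)) • (u + u') + ((1 - ε * κ) • v + (ε * (d ⬝ᵥ v)) • d) with hp
    by_contra hpK
    obtain ⟨f, α, hf, hfα⟩ := geometric_hahn_banach_closed_point hcv hK.isClosed hpK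
    set ψ : Fin 3 → ℝ := fun i => f (Pi.single i 1) with hψ
    have hfψ : ∀ x, f x = ψ ⬝ᵥ x := by
      intro x
      have hx : x = ∑ i, x i • (Pi.single i (1 : ℝ) : Fin 3 → ℝ) := by
        funext j
        simp [Finset.sum_apply, Pi.single_apply]
      conv_lhs => rw [hx]
      rw [map_sum]
      simp only [map_smul, smul_eq_mul, dotProduct, hψ]
      exact Finset.sum_congr rfl fun i _ => mul_comm _ _
    set y := ψ ᵥ* M with hy
    have hfy : ∀ x, f (c + M *ᵥ x) = f c + y ⬝ᵥ x := by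
      intro x
      rw [map_add, hfψ (M *ᵥ x), Matrix.dotProduct_mulVec]
    have hc0 : f c < α := by
      have := hf _ (hball 0 (by simp))
      simpa using this
    have hyp : α < f c + y ⬝ᵥ p := by rw [← hfy]; exact hfα
    have hyy : 0 < y ⬝ᵥ y := by
      have h0 : 0 ≤ y ⬝ᵥ y := by
        simp only [dotProduct, Fin.sum_univ_three]
        nlinarith [mul_self_nonneg (y 0), mul_self_nonneg (y 1), mul_self_nonneg (y 2)]
      rcases h0.lt_or_eq with h | h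
      · exact h
      · exfalso
        have h2 := cs3 y p
        rw [← h, zero_mul] at h2
        have h3 : y ⬝ᵥ p = 0 := by
          have := sq_nonneg (y ⬝ᵥ p)
          exact pow_eq_zero_iff (two_ne_zero) |>.1 (le_antisymm h2 this)
        rw [h3] at hyp
        linarith
    set n := Real.sqrt (y ⬝ᵥ y) with hn
    have hn0 : 0 < n := Real.sqrt_pos.2 hyy
    have hnn : n * n = y ⬝ᵥ y := Real.mul_self_sqrt hyy.le
    set z := n⁻¹ • y with hz
    have hzz : z ⬝ᵥ z = 1 := by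
      rw [hz, smul_dotProduct, dotProduct_smul, ← hnn]
      simp only [smul_eq_mul]
      field_simp
    have hyz : ∀ x, y ⬝ᵥ x = n * (z ⬝ᵥ x) := by
      intro x
      rw [hz, smul_dotProduct, smul_eq_mul]
      field_simp
    set T := (α - f c) / n with hT
    have hTn : T * n = α - f c := by rw [hT]; field_simp
    have hlt : ∀ x, c + M *ᵥ x ∈ K → z ⬝ᵥ x < T := by
      intro x hx
      have h1 := hf _ hx
      rw [hfy, hyz] at h1
      have h2 : (z ⬝ᵥ x) * n < T * n := by rw [hTn]; linarith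
      exact lt_of_mul_lt_mul_right h2 hn0.le
    have hT1 : 1 < T := by
      have h1 := hlt z (hball z hzz.le)
      rwa [hzz] at h1
    have hTp : T < z ⬝ᵥ p := by
      rw [hyz] at hyp
      have h2 : T * n < (z ⬝ᵥ p) * n := by rw [hTn]; linarith
      exact lt_of_mul_lt_mul_right h2 hn0.le
    have hopp : ∀ x, c + M *ᵥ x ∈ K → -(s * T) < z ⬝ᵥ x := by
      intro x hx
      have h1 := hsym _ hx
      have h2 : c - s⁻¹ • (c + M *ᵥ x - c) = c + M *ᵥ (-(s⁻¹ • x)) := by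
        rw [Matrix.mulVec_neg, Matrix.mulVec_smul, add_sub_cancel_left]; abel
      rw [h2] at h1
      have h3 := hlt _ h1
      rw [dotProduct_neg, dotProduct_smul, smul_eq_mul] at h3
      have h4 : s * (-(s⁻¹ * (z ⬝ᵥ x))) < s * T := mul_lt_mul_of_pos_left h3 hs
      have h5 : s * (-(s⁻¹ * (z ⬝ᵥ x))) = -(z ⬝ᵥ x) := by field_simp
      linarith
    set t := z ⬝ᵥ u with ht
    set t' := z ⬝ᵥ u' with ht'
    have hdz : d ⬝ᵥ z = t - t' := by
      rw [hd, dotProduct_comm, dotProduct_sub]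
    -- the value at p
    have hzp : z ⬝ᵥ p ≤ 1 + ε * ((1 + s) * (t + t') + (t - t') ^ 2 - κ) + ε ^ 2 * (D ^ 2 / 4) := by
      have h1 : z ⬝ᵥ p = ε * (1 + s) * (t + t') +
          ((1 - ε * κ) • z + (ε * (d ⬝ᵥ z)) • d) ⬝ᵥ v := by
        rw [hp, ht, ht']
        simp only [dotProduct, Fin.sum_univ_three, Pi.add_apply, Pi.smul_apply, smul_eq_mul]
        ring
      have h2 := normb z d v ε κ hzz hv hε0 e3.le
      rw [h1]
      rw [hdz] at h2 ⊢
      linarith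
    have htT := hlt u hu
    have ht'T := hlt u' hu'
    have hT2 : T ≤ 2 := by
      have h1 := amgm3 z u hzz
      have h2 := amgm3 z u' hzz
      have h3 : (t - t') ^ 2 ≤ D := by
        have := cs3 d z
        rw [hzz, mul_one, hdz] at this
        exact this
      have h4 : ε * ((1 + s) * (t + t') + (t - t') ^ 2 - κ)
          ≤ ε * ((1 + s) * (1 + (u ⬝ᵥ u + u' ⬝ᵥ u') / 2) + D) := by
        apply mul_le_mul_of_nonneg_left _ hε0.le
        have h5 : (1 + s) * (t + t') ≤ (1 + s) * (1 + (u ⬝ᵥ u + u' ⬝ᵥ u') / 2) := by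
          apply mul_le_mul_of_nonneg_left _ (by linarith)
          rw [ht, ht']; linarith
        linarith
      have h6 : ε ^ 2 * (D ^ 2 / 4) ≤ 1 / 2 := by
        have : ε ^ 2 * (D ^ 2 / 4) = ε * (ε * (D ^ 2 / 4)) := by ring
        rw [this]
        have h7 : 0 ≤ ε * (D ^ 2 / 4) := by positivity
        nlinarith
      linarith
    have := scal T t t' s ε κ δ D hs hT1 hT2 htT ht'T (hopp u hu) (hopp u' hu') hκ hε0 e1.le e2.le
    linarith
  have hdet := hmax _ _ hnew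
  rw [Matrix.det_mul, det_var, abs_mul] at hdet
  have hMpos : 0 < |M.det| := abs_pos.2 hM
  have h6δ : D - 3 * κ = 3 * δ := by rw [hκ, hδ]; ring
  have hDκ : 0 < D - κ := by linarith
  have hfac : 1 < (1 - ε * κ) ^ 2 * (1 - ε * κ + ε * D) := by
    have h1 : 0 < 1 - ε * κ + ε * D := by nlinarith
    have h2 : 1 - 2 * (ε * κ) ≤ (1 - ε * κ) ^ 2 := by nlinarith [sq_nonneg (ε * κ)]
    have h3 : (1 - 2 * (ε * κ)) * (1 - ε * κ + ε * D) ≤ (1 - ε * κ) ^ 2 * (1 - ε * κ + ε * D) :=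
      mul_le_mul_of_nonneg_right h2 h1.le
    have h4 : (1 - 2 * (ε * κ)) * (1 - ε * κ + ε * D)
        = 1 + ε * ((D - 3 * κ) - ε * (2 * κ * (D - κ))) := by ring
    have h5 : 0 < ε * ((D - 3 * κ) - ε * (2 * κ * (D - κ))) := by
      apply mul_pos hε0
      rw [h6δ]; linarith
    linarith
  have habs : 1 < |(1 - ε * κ) ^ 2 * (1 - ε * κ + ε * (d ⬝ᵥ d))| := lt_of_lt_of_le hfac (le_abs_self _)
  nlinarith

/-- Every compact set with nonempty interior contains an ellipsoid of maximal volume. -/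
theorem exists_max (K : Set (Fin 3 → ℝ)) (hK : IsCompact K) (hi : (interior K).Nonempty) :
    ∃ (c : Fin 3 → ℝ) (M : Matrix (Fin 3) (Fin 3) ℝ), M.det ≠ 0 ∧
      (∀ v : Fin 3 → ℝ, v ⬝ᵥ v ≤ 1 → c + M *ᵥ v ∈ K) ∧
      ∀ (c' : Fin 3 → ℝ) (M' : Matrix (Fin 3) (Fin 3) ℝ),
        (∀ v : Fin 3 → ℝ, v ⬝ᵥ v ≤ 1 → c' + M' *ᵥ v ∈ K) → |M'.det| ≤ |M.det| := by
  obtain ⟨x₀, hx₀⟩ := hi
  obtain ⟨e, he, hball⟩ := Metric.isOpen_iff.mp isOpen_interior x₀ hx₀
  set S : Set ((Fin 3 → ℝ) × Matrix (Fin 3) (Fin 3) ℝ) :=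
    {P | ∀ v : Fin 3 → ℝ, v ⬝ᵥ v ≤ 1 → P.1 + P.2 *ᵥ v ∈ K} with hS
  obtain ⟨R, hR⟩ := hK.isBounded.exists_norm_le
  have hSclosed : IsClosed S := by
    have : S = ⋂ (v : Fin 3 → ℝ) (_ : v ⬝ᵥ v ≤ 1),
        (fun P : (Fin 3 → ℝ) × Matrix (Fin 3) (Fin 3) ℝ => P.1 + P.2 *ᵥ v) ⁻¹' K := by
      ext P; simp [hS]
    rw [this]
    refine isClosed_iInter fun v => isClosed_iInter fun _ => ?_
    exact hK.isClosed.preimage
      (continuous_fst.add (Continuous.matrix_mulVec continuous_snd continuous_const))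
  have hc1 : ∀ P ∈ S, ∀ i, |P.1 i| ≤ R := by
    intro P hP i
    have h1 := hR _ (hP 0 (by simp))
    have h2 : P.1 + P.2 *ᵥ 0 = P.1 := by simp
    rw [h2] at h1
    have := (norm_le_pi_norm P.1 i).trans h1
    simpa [Real.norm_eq_abs] using this
  have hSsub : S ⊆ (Set.pi Set.univ (fun _ : Fin 3 => Set.Icc (-R) R)) ×ˢ
      (Set.pi Set.univ (fun _ : Fin 3 => Set.pi Set.univ
      (fun _ : Fin 3 => Set.Icc (-(2 * R)) (2 * R)))) := by
    intro P hP
    refine ⟨fun i _ => abs_le.mp (hc1 P hP i), ?_⟩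
    intro i _ j _
    have h1 := hR _ (hP (Pi.single j 1) (by fin_cases j <;> simp [dotProduct, Fin.sum_univ_three]))
    rw [Matrix.mulVec_single_one] at h1
    have h2 : |P.1 i + P.2 i j| ≤ R := by
      have := (norm_le_pi_norm (P.1 + P.2.col j) i).trans h1
      simpa [Real.norm_eq_abs] using this
    have h3 := hc1 P hP i
    rw [abs_le] at h2 h3
    exact ⟨by linarith, by linarith⟩
  have hScomp : IsCompact S := by
    refine IsCompact.of_isClosed_subset ?_ hSclosed hSsub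
    exact (isCompact_univ_pi fun _ => isCompact_Icc).prod
      (isCompact_univ_pi fun _ => isCompact_univ_pi fun _ => isCompact_Icc)
  have hE : (x₀, (e / 2) • (1 : Matrix (Fin 3) (Fin 3) ℝ)) ∈ S := by
    intro u hu
    show x₀ + ((e / 2) • (1 : Matrix (Fin 3) (Fin 3) ℝ)) *ᵥ u ∈ K
    rw [Matrix.smul_mulVec, Matrix.one_mulVec]
    apply interior_subset
    apply hball
    rw [Metric.mem_ball, dist_eq_norm, add_sub_cancel_left, pi_norm_lt_iff he]
    intro i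
    rw [Pi.smul_apply, smul_eq_mul, Real.norm_eq_abs, abs_mul,
      abs_of_pos (by positivity : 0 < e / 2)]
    have : |u i| ≤ 1 := by
      rw [abs_le_one_iff_mul_self_le_one]
      simp only [dotProduct, Fin.sum_univ_three] at hu
      fin_cases i <;> simp <;>
        nlinarith [mul_self_nonneg (u 0), mul_self_nonneg (u 1), mul_self_nonneg (u 2)]
    nlinarith
  obtain ⟨P, hPS, hPmax⟩ := hScomp.exists_isMaxOn ⟨_, hE⟩
    (f := fun P : (Fin 3 → ℝ) × Matrix (Fin 3) (Fin 3) ℝ => |P.2.det|)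
    (Continuous.matrix_det continuous_snd).abs.continuousOn
  refine ⟨P.1, P.2, ?_, hPS, ?_⟩
  · have h1 := hPmax hE
    simp only [Set.mem_ofPred_eq] at h1
    have h2 : 0 < |((e / 2) • (1 : Matrix (Fin 3) (Fin 3) ℝ)).det| := by
      rw [Matrix.det_smul, Matrix.det_one]
      positivity
    exact abs_pos.1 (lt_of_lt_of_le h2 h1)
  · intro c' M' h
    have h1 := hPmax (show (c', M') ∈ S from h)
    simpa only [Set.mem_ofPred_eq] using h1

end Pool.Agent.Helper15.SF
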