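import Mathlib
import Pool.Agent.Helper22.Sym.Main
import Pool.Agent.Helper15.SF.JohnC

/-! S5: the lattice width of a lattice-free body of bounded asymmetry about the centre of its ellipsoid of
maximal volume. -/

set_option autoImplicit false

namespace Pool.Agent.Helper15.SF

open Matrix Pool.Agent.Helper22.Sym

/-- If `c + M B` is an ellipsoid of maximal volume in the lattice-free convex body `K` and the asymmetry of `K`
about `c` is at most `s`, then the squared lattice width of `K` is at most `9 (1 + s) / 2`. -/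
theorem john_flat (K : Set (Fin 3 → ℝ)) (hK : IsCompact K) (hcv : Convex ℝ K)
    (hfree : ∀ z : Fin 3 → ℤ, (fun i => (z i : ℝ)) ∉ interior K)
    (c : Fin 3 → ℝ) (M : Matrix (Fin 3) (Fin 3) ℝ) (hM : M.det ≠ 0)
    (hball : ∀ v : Fin 3 → ℝ, v ⬝ᵥ v ≤ 1 → c + M *ᵥ v ∈ K)
    (hmax : ∀ (c' : Fin 3 → ℝ) (M' : Matrix (Fin 3) (Fin 3) ℝ),
      (∀ v : Fin 3 → ℝ, v ⬝ᵥ v ≤ 1 → c' + M' *ᵥ v ∈ K) → |M'.det| ≤ |M.det|)
    (s : ℝ) (hs : 0 < s) (hsym : ∀ x ∈ K, c - s⁻¹ • (x - c) ∈ K) :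
    ∃ u : Fin 3 → ℤ, u ≠ 0 ∧ ∀ x ∈ K, ∀ x' ∈ K,
      (∑ i, (x i - x' i) * (u i : ℝ)) ^ 2 ≤ 9 * (1 + s) / 2 := by
  have h1s : 0 < 1 + s := by linarith
  have hunit : IsUnit M.det := isUnit_iff_ne_zero.mpr hM
  have hM1 : M⁻¹ * M = 1 := Matrix.nonsing_inv_mul M hunit
  have hM2 : M * M⁻¹ = 1 := Matrix.mul_nonsing_inv M hunit
  have hGform : ∀ v : Fin 3 → ℝ, v ⬝ᵥ ((M⁻¹)ᵀ * M⁻¹) *ᵥ v = (M⁻¹ *ᵥ v) ⬝ᵥ (M⁻¹ *ᵥ v) := by
    intro v
    rw [← mulVec_mulVec, dotProduct_mulVec, vecMul_transpose]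
  have hG : ((M⁻¹)ᵀ * M⁻¹).PosDef := by
    have h1 : ((M⁻¹)ᵀ * M⁻¹).PosSemidef := by
      have := Matrix.posSemidef_conjTranspose_mul_self M⁻¹
      simpa [conjTranspose_eq_transpose_of_trivial] using this
    refine (Matrix.PosSemidef.posDef_iff_isUnit h1).2 ?_
    rw [Matrix.isUnit_iff_isUnit_det, isUnit_iff_ne_zero, det_mul, det_transpose]
    have : M⁻¹.det ≠ 0 := by
      intro h0
      have := congrArg Matrix.det hM1
      rw [det_mul, h0, zero_mul, det_one] at this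
      exact zero_ne_one this
    exact mul_ne_zero this this
  have hNform : ∀ y : Fin 3 → ℝ, y ⬝ᵥ ((6 * (1 + s)) • (M * Mᵀ)) *ᵥ y
      = 6 * (1 + s) * ((Mᵀ *ᵥ y) ⬝ᵥ (Mᵀ *ᵥ y)) := by
    intro y
    rw [Matrix.smul_mulVec, dotProduct_smul, ← mulVec_mulVec, dotProduct_mulVec,
      ← mulVec_transpose, smul_eq_mul]
  have hE : ∀ x, (x - c) ⬝ᵥ ((M⁻¹)ᵀ * M⁻¹) *ᵥ (x - c) ≤ 1 → x ∈ K := by
    intro x hx
    rw [hGform] at hx
    have h1 := hball _ hx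
    rw [Matrix.mulVec_mulVec, hM2, Matrix.one_mulVec] at h1
    simpa using h1
  have hinv : ∀ x : Fin 3 → ℝ, c + M *ᵥ (M⁻¹ *ᵥ (x - c)) = x := by
    intro x
    rw [Matrix.mulVec_mulVec, hM2, Matrix.one_mulVec]
    simp
  have hN : ∀ x ∈ K, ∀ x' ∈ K, ∀ y : Fin 3 → ℝ,
      (y ⬝ᵥ (x - x')) ^ 2 ≤ y ⬝ᵥ ((6 * (1 + s)) • (M * Mᵀ)) *ᵥ y := by
    intro x hx x' hx' y
    rw [hNform]
    have h1 := john_centre K hK hcv c M hM hball hmax s hs hsym (M⁻¹ *ᵥ (x - c)) (M⁻¹ *ᵥ (x' - c))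
      (by rw [hinv]; exact hx) (by rw [hinv]; exact hx')
    set w := M⁻¹ *ᵥ (x - c) - M⁻¹ *ᵥ (x' - c) with hw
    have e : x - x' = M *ᵥ w := by
      rw [hw, Matrix.mulVec_sub, Matrix.mulVec_mulVec, Matrix.mulVec_mulVec, hM2, Matrix.one_mulVec,
        Matrix.one_mulVec]
      simp
    rw [e, dotProduct_mulVec, ← mulVec_transpose]
    have h3 := cs3 (Mᵀ *ᵥ y) w
    have h4 : 0 ≤ (Mᵀ *ᵥ y) ⬝ᵥ (Mᵀ *ᵥ y) := by
      simp only [dotProduct, Fin.sum_univ_three]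
      nlinarith [mul_self_nonneg ((Mᵀ *ᵥ y) 0), mul_self_nonneg ((Mᵀ *ᵥ y) 1),
        mul_self_nonneg ((Mᵀ *ᵥ y) 2)]
    have h5 := mul_le_mul_of_nonneg_left h1 h4
    linarith
  obtain ⟨u, hu0, hu⟩ := criterion K _ _ hG c hE hN hfree
  refine ⟨u, hu0, fun x hx x' hx' => ?_⟩
  have h1 := hu x hx x' hx'
  have htr : (((M⁻¹)ᵀ * M⁻¹) * ((6 * (1 + s)) • (M * Mᵀ))).trace = 18 * (1 + s) := by
    rw [Matrix.mul_smul, Matrix.trace_smul]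
    have : (M⁻¹)ᵀ * M⁻¹ * (M * Mᵀ) = 1 := by
      rw [Matrix.mul_assoc, ← Matrix.mul_assoc M⁻¹ M, hM1, Matrix.one_mul, ← Matrix.transpose_mul, hM2,
        Matrix.transpose_one]
    rw [this]
    simp
    ring
  rw [htr] at h1
  refine h1.trans (le_of_eq (by ring))

end Pool.Agent.Helper15.SF
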