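import Mathlib
import Pool.Agent.Helper15.SF.JohnC

/-! S5: the ellipsoid of maximal `det (S - v vᵀ)` of a convex body with asymmetry `s` about a point `c`.

Ellipsoids which contain `c` are parametrised by `(v, Q)`: the ellipsoid is
`{c + (1 + τ) v + Q w : |w|² + τ² ≤ 1}`, with centre `c + v` and form `S = Q Qᵀ + v vᵀ`.  If `(v, Q)` lies in `K` and
`|det Q|` is maximal, then `(x - x')ᵀ (Q Qᵀ)⁻¹ (x - x') ≤ 6 (1 + s)` for all `x, x' ∈ K`. -/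

set_option autoImplicit false

namespace Pool.Agent.Helper15.SF

open Matrix Filter Topology

/-- the ellipsoid with data `v, Q` lies in `K` -/
def EllIn (K : Set (Fin 3 → ℝ)) (c v : Fin 3 → ℝ) (Q : Matrix (Fin 3) (Fin 3) ℝ) : Prop :=
  ∀ (w : Fin 3 → ℝ) (τ : ℝ), w ⬝ᵥ w + τ ^ 2 ≤ 1 → c + (1 + τ) • v + Q *ᵥ w ∈ K

/-- the scalar inequality behind the variation -/
theorem scal2 (T n θ σ q s ε κ δ D : ℝ) (hε : 0 < ε) (hn : 0 ≤ n)
    (hnR : n ≤ T ^ 2 - 2 * T * θ) (hq : q ≤ (1 + s) * T * (2 * T - σ)) (hq0 : 0 ≤ q)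
    (hqD : q ≤ D * n) (hD : 0 ≤ D) (hκ : κ = 2 * (1 + s) + δ) (hκ0 : 0 ≤ κ)
    (e1 : ε * (4 * (1 + s)) ≤ 1) (e2 : ε * (κ ^ 2 + D ^ 2) ≤ 2 * δ) :
    (1 - ε * κ) ^ 2 * n + 2 * ε * (1 - ε * κ) * q + ε ^ 2 * (q * D)
      ≤ T ^ 2 - 2 * T * (θ + ε * (1 + s) * (σ - 4 * θ)) := by
  set R := T ^ 2 - 2 * T * θ with hR
  have h1 : n * (1 - ε * (4 * (1 + s))) ≤ R * (1 - ε * (4 * (1 + s))) :=
    mul_le_mul_of_nonneg_right hnR (by linarith)
  have h2 : q * D ≤ D * n * D := mul_le_mul_of_nonneg_right hqD hD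
  have h3 : ε ^ 2 * (q * D) ≤ ε ^ 2 * (D * n * D) := mul_le_mul_of_nonneg_left h2 (sq_nonneg _)
  have h4 : 0 ≤ ε ^ 2 * κ * q := by positivity
  have h5 : (2 * ε) * q ≤ (2 * ε) * ((1 + s) * T * (2 * T - σ)) :=
    mul_le_mul_of_nonneg_left hq (by linarith)
  have h6 : (ε * n) * (ε * (κ ^ 2 + D ^ 2)) ≤ (ε * n) * (2 * δ) :=
    mul_le_mul_of_nonneg_left e2 (by positivity)
  have h7 : T ^ 2 - 2 * T * (θ + ε * (1 + s) * (σ - 4 * θ))
      = R * (1 - ε * (4 * (1 + s))) + (2 * ε) * ((1 + s) * T * (2 * T - σ)) := by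
    rw [hR]; ring
  rw [h7]
  have h8 : (1 - ε * κ) ^ 2 * n + 2 * ε * (1 - ε * κ) * q + ε ^ 2 * (q * D)
      = n - 2 * ε * κ * n + ε ^ 2 * κ ^ 2 * n + 2 * ε * q - 2 * (ε ^ 2 * κ * q) + ε ^ 2 * (q * D) := by
    ring
  rw [h8]
  have h9 : κ * (ε * n) = 2 * (1 + s) * (ε * n) + δ * (ε * n) := by rw [hκ]; ring
  nlinarith

/-- Cauchy-Schwarz in dimension four -/
theorem cs4 (a b : Fin 3 → ℝ) (x y : ℝ) :
    (a ⬝ᵥ b + x * y) ^ 2 ≤ (a ⬝ᵥ a + x ^ 2) * (b ⬝ᵥ b + y ^ 2) := by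
  simp only [dotProduct, Fin.sum_univ_three]
  nlinarith [sq_nonneg (a 0 * b 1 - a 1 * b 0), sq_nonneg (a 0 * b 2 - a 2 * b 0),
    sq_nonneg (a 1 * b 2 - a 2 * b 1), sq_nonneg (a 0 * y - x * b 0), sq_nonneg (a 1 * y - x * b 1),
    sq_nonneg (a 2 * y - x * b 2)]

theorem dot_self_nonneg3 (y : Fin 3 → ℝ) : 0 ≤ y ⬝ᵥ y := by
  simp only [dotProduct, Fin.sum_univ_three]
  nlinarith [mul_self_nonneg (y 0), mul_self_nonneg (y 1), mul_self_nonneg (y 2)]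

/-- the squared norm of the varied direction -/
theorem normY (y d : Fin 3 → ℝ) (ε κ : ℝ) :
    ((1 - ε * κ) • y + (ε * (d ⬝ᵥ y)) • d) ⬝ᵥ ((1 - ε * κ) • y + (ε * (d ⬝ᵥ y)) • d)
      = (1 - ε * κ) ^ 2 * (y ⬝ᵥ y) + 2 * ε * (1 - ε * κ) * (d ⬝ᵥ y) ^ 2
        + ε ^ 2 * ((d ⬝ᵥ y) ^ 2 * (d ⬝ᵥ d)) := by
  simp only [dotProduct, Fin.sum_univ_three, Pi.add_apply, Pi.smul_apply, smul_eq_mul]
  ring

/-- **The ellipsoid of maximal `det (S - v vᵀ)`.** -/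
theorem mink_centre (K : Set (Fin 3 → ℝ)) (hK : IsCompact K) (hcv : Convex ℝ K)
    (c v : Fin 3 → ℝ) (Q : Matrix (Fin 3) (Fin 3) ℝ) (hQ : Q.det ≠ 0) (hball : EllIn K c v Q)
    (hmax : ∀ (v' : Fin 3 → ℝ) (Q' : Matrix (Fin 3) (Fin 3) ℝ), EllIn K c v' Q' → |Q'.det| ≤ |Q.det|)
    (s : ℝ) (hs : 0 < s) (hsym : ∀ x ∈ K, c - s⁻¹ • (x - c) ∈ K)
    (u u' : Fin 3 → ℝ) (hu : c + Q *ᵥ u ∈ K) (hu' : c + Q *ᵥ u' ∈ K) :
    (u - u') ⬝ᵥ (u - u') ≤ 6 * (1 + s) := by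
  by_contra hcon
  rw [not_le] at hcon
  have hunit : IsUnit Q.det := isUnit_iff_ne_zero.mpr hQ
  have hQ2 : Q * Q⁻¹ = 1 := Matrix.mul_nonsing_inv Q hunit
  set ν := Q⁻¹ *ᵥ v with hν
  have hvν : v = Q *ᵥ ν := by rw [hν, Matrix.mulVec_mulVec, hQ2, Matrix.one_mulVec]
  set d := u - u' with hd
  set D := d ⬝ᵥ d with hD
  set δ := (D - 6 * (1 + s)) / 6 with hδ
  have hδ0 : 0 < δ := by rw [hδ]; linarith
  set κ := 2 * (1 + s) + δ with hκ
  have hκ0 : 0 < κ := by rw [hκ]; linarith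
  have hD0 : 0 ≤ D := dot_self_nonneg3 d
  -- choice of ε
  obtain ⟨ε, ⟨⟨⟨⟨e1, e2⟩, e3⟩, e7⟩, hε⟩⟩ :=
    ((((small_eps (4 * (1 + s)) 1 one_pos).and (small_eps (κ ^ 2 + D ^ 2) (2 * δ) (by linarith))).and
      (small_eps κ (1 / 2) (by norm_num))).and
      (small_eps (2 * κ * (D - κ)) (3 * δ) (by linarith))).and self_mem_nhdsWithin |>.exists
  have hε0 : 0 < ε := hε
  -- the varied ellipsoid lies in K
  have hnew : EllIn K c (Q *ᵥ (ν + (ε * (1 + s)) • (u + u' - (4 : ℝ) • ν)))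
      (Q * ((1 - ε * κ) • (1 : Matrix (Fin 3) (Fin 3) ℝ) + ε • vecMulVec d d)) := by
    intro w τ hw
    rw [← Matrix.mulVec_mulVec, mulVec_var, ← Matrix.mulVec_smul, add_assoc, ← Matrix.mulVec_add]
    set ν' := ν + (ε * (1 + s)) • (u + u' - (4 : ℝ) • ν) with hν'
    set p := (1 + τ) • ν' + ((1 - ε * κ) • w + (ε * (d ⬝ᵥ w)) • d) with hp
    by_contra hpK
    obtain ⟨f, α, hf, hfα⟩ := geometric_hahn_banach_closed_point hcv hK.isClosed hpK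
    set ψ : Fin 3 → ℝ := fun i => f (Pi.single i 1) with hψ
    have hfψ : ∀ x, f x = ψ ⬝ᵥ x := by
      intro x
      have hx : x = ∑ i, x i • (Pi.single i (1 : ℝ) : Fin 3 → ℝ) := by
        funext j
        simp [Finset.sum_apply, Pi.single_apply]
      conv_lhs => rw [hx]
      rw [map_sum]
      simp only [map_smul, smul_eq_mul, dotProduct, hψ]
      exact Finset.sum_congr rfl fun i _ => mul_comm _ _
    set y := ψ ᵥ* Q with hy
    have hfy : ∀ x, f (c + Q *ᵥ x) = f c + y ⬝ᵥ x := by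
      intro x
      rw [map_add, hfψ (Q *ᵥ x), Matrix.dotProduct_mulVec]
    have hc0 : f c < α := by
      have h1 := hf _ (hball 0 (-1) (by norm_num))
      simpa using h1
    set T := α - f c with hT
    have hT0 : 0 < T := by rw [hT]; linarith
    have hTp : T < y ⬝ᵥ p := by
      have h1 : α < f c + y ⬝ᵥ p := by rw [← hfy]; exact hfα
      rw [hT]; linarith
    have hlt : ∀ x, c + Q *ᵥ x ∈ K → y ⬝ᵥ x < T := by
      intro x hx
      have h1 := hf _ hx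
      rw [hfy] at h1
      rw [hT]; linarith
    have hopp : ∀ x, c + Q *ᵥ x ∈ K → -(s * T) < y ⬝ᵥ x := by
      intro x hx
      have h1 := hsym _ hx
      have h2 : c - s⁻¹ • (c + Q *ᵥ x - c) = c + Q *ᵥ (-(s⁻¹ • x)) := by
        rw [Matrix.mulVec_neg, Matrix.mulVec_smul, add_sub_cancel_left]; abel
      rw [h2] at h1
      have h3 := hlt _ h1
      rw [dotProduct_neg, dotProduct_smul, smul_eq_mul] at h3
      have h4 : s * (-(s⁻¹ * (y ⬝ᵥ x))) < s * T := mul_lt_mul_of_pos_left h3 hs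
      have h5 : s * (-(s⁻¹ * (y ⬝ᵥ x))) = -(y ⬝ᵥ x) := by field_simp
      linarith
    have hyy : 0 < y ⬝ᵥ y := by
      rcases (dot_self_nonneg3 y).lt_or_eq with h | h
      · exact h
      · exfalso
        have h2 := cs3 y p
        rw [← h, zero_mul] at h2
        have h3 : y ⬝ᵥ p = 0 := by
          have := sq_nonneg (y ⬝ᵥ p)
          exact pow_eq_zero_iff (two_ne_zero) |>.1 (le_antisymm h2 this)
        rw [h3] at hTp
        linarith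
    set θ := y ⬝ᵥ ν with hθ
    -- the ellipsoid (v, Q) lies in the half space
    have hnR : y ⬝ᵥ y ≤ T ^ 2 - 2 * T * θ := by
      set m := Real.sqrt (y ⬝ᵥ y + θ ^ 2) with hm
      have hpos : 0 < y ⬝ᵥ y + θ ^ 2 := by positivity
      have hm0 : 0 < m := Real.sqrt_pos.2 hpos
      have hmm : m * m = y ⬝ᵥ y + θ ^ 2 := Real.mul_self_sqrt hpos.le
      have h1 := hball (m⁻¹ • y) (m⁻¹ * θ) (by
        rw [smul_dotProduct, dotProduct_smul]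
        simp only [smul_eq_mul]
        have : m⁻¹ * (m⁻¹ * (y ⬝ᵥ y)) + (m⁻¹ * θ) ^ 2 = (m⁻¹ * m⁻¹) * (y ⬝ᵥ y + θ ^ 2) := by ring
        rw [this, ← hmm]
        have : m⁻¹ * m⁻¹ * (m * m) = 1 := by field_simp
        rw [this])
      rw [hvν, ← Matrix.mulVec_smul, add_assoc, ← Matrix.mulVec_add] at h1
      have h2 := hlt _ h1
      rw [dotProduct_add, dotProduct_smul, dotProduct_smul] at h2
      simp only [smul_eq_mul] at h2
      have h3 : (1 + m⁻¹ * θ) * (y ⬝ᵥ ν) + m⁻¹ * (y ⬝ᵥ y) = θ + m⁻¹ * (y ⬝ᵥ y + θ ^ 2) := by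
        rw [← hθ]; ring
      rw [h3, ← hmm] at h2
      have h4 : m⁻¹ * (m * m) = m := by field_simp
      rw [h4] at h2
      have h5 : m < T - θ := by linarith
      have h6 : m * m < (T - θ) * (T - θ) := mul_self_lt_mul_self hm0.le h5
      rw [hmm] at h6
      nlinarith
    set σ := y ⬝ᵥ (u + u') with hσ
    have hdy : d ⬝ᵥ y = y ⬝ᵥ u - y ⬝ᵥ u' := by
      rw [hd, dotProduct_comm, dotProduct_sub]
    have hq : (d ⬝ᵥ y) ^ 2 ≤ (1 + s) * T * (2 * T - σ) := by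
      have a1 := hlt u hu
      have a2 := hlt u' hu'
      have a3 := hopp u hu
      have a4 := hopp u' hu'
      rw [hdy, hσ, dotProduct_add]
      have p1 : 0 ≤ (T - y ⬝ᵥ u) * (s * T + y ⬝ᵥ u) := mul_nonneg (by linarith) (by linarith)
      have p2 : 0 ≤ (T - y ⬝ᵥ u') * (s * T + y ⬝ᵥ u') := mul_nonneg (by linarith) (by linarith)
      have p3 : 0 ≤ (T - y ⬝ᵥ u) * (T - y ⬝ᵥ u') := mul_nonneg (by linarith) (by linarith)
      nlinarith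
    have hqD : (d ⬝ᵥ y) ^ 2 ≤ D * (y ⬝ᵥ y) := by
      rw [hD]
      exact cs3 d y
    have hmain := scal2 T (y ⬝ᵥ y) θ σ ((d ⬝ᵥ y) ^ 2) s ε κ δ D hε0 hyy.le hnR hq (sq_nonneg _) hqD
      hD0 hκ hκ0.le e1.le e2.le
    rw [hD, ← normY] at hmain
    set Y := (1 - ε * κ) • y + (ε * (d ⬝ᵥ y)) • d with hY
    set θ' := θ + ε * (1 + s) * (σ - 4 * θ) with hθ'
    have hyν' : y ⬝ᵥ ν' = θ' := by
      rw [hν', dotProduct_add, dotProduct_smul, dotProduct_sub, dotProduct_smul, ← hθ, ← hσ, hθ']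
      simp only [smul_eq_mul]
    have hyp : y ⬝ᵥ p = θ' + (Y ⬝ᵥ w + θ' * τ) := by
      rw [hp, dotProduct_add, dotProduct_smul, hyν', hY]
      simp only [dotProduct, Fin.sum_univ_three, Pi.add_apply, Pi.smul_apply, smul_eq_mul]
      ring
    have hX := cs4 Y w θ' τ
    have hYY : 0 ≤ Y ⬝ᵥ Y := dot_self_nonneg3 Y
    have hww : 0 ≤ w ⬝ᵥ w := dot_self_nonneg3 w
    have hX2 : (Y ⬝ᵥ w + θ' * τ) ^ 2 ≤ Y ⬝ᵥ Y + θ' ^ 2 := by
      refine hX.trans ?_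
      have h1 : 0 ≤ Y ⬝ᵥ Y + θ' ^ 2 := by positivity
      nlinarith
    have hTθ : 0 < T - θ' := by
      have h1 : 0 ≤ T * (T - 2 * θ') := by nlinarith
      have h2 : 0 ≤ T - 2 * θ' := nonneg_of_mul_nonneg_right h1 hT0
      linarith
    rw [hyp] at hTp
    have h3 : (T - θ') ^ 2 < (Y ⬝ᵥ w + θ' * τ) ^ 2 := by
      have h4 : T - θ' < Y ⬝ᵥ w + θ' * τ := by linarith
      nlinarith
    nlinarith
  have hdet := hmax _ _ hnew
  rw [Matrix.det_mul, det_var, abs_mul] at hdet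
  have hMpos : 0 < |Q.det| := abs_pos.2 hQ
  have h6δ : D - 3 * κ = 3 * δ := by rw [hκ, hδ]; ring
  have hDκ : 0 < D - κ := by linarith
  have hfac : 1 < (1 - ε * κ) ^ 2 * (1 - ε * κ + ε * D) := by
    have h1 : 0 < 1 - ε * κ + ε * D := by nlinarith
    have h2 : 1 - 2 * (ε * κ) ≤ (1 - ε * κ) ^ 2 := by nlinarith [sq_nonneg (ε * κ)]
    have h3 : (1 - 2 * (ε * κ)) * (1 - ε * κ + ε * D) ≤ (1 - ε * κ) ^ 2 * (1 - ε * κ + ε * D) :=
      mul_le_mul_of_nonneg_right h2 h1.le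
    have h4 : (1 - 2 * (ε * κ)) * (1 - ε * κ + ε * D)
        = 1 + ε * ((D - 3 * κ) - ε * (2 * κ * (D - κ))) := by ring
    have h5 : 0 < ε * ((D - 3 * κ) - ε * (2 * κ * (D - κ))) := by
      apply mul_pos hε0
      rw [h6δ]; linarith
    linarith
  have habs : 1 < |(1 - ε * κ) ^ 2 * (1 - ε * κ + ε * (d ⬝ᵥ d))| := lt_of_lt_of_le hfac (le_abs_self _)
  nlinarith

end Pool.Agent.Helper15.SF
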