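import Mathlib
import Pool.Agent.Helper22.Sym.Main
import Pool.Agent.Helper15.SF.Mink

/-! S5: the lattice width of a lattice-free body of asymmetry at most `s` about some point `c` is at most
`sqrt (9 (1 + s) / 2)`. -/

set_option autoImplicit false

namespace Pool.Agent.Helper15.SF

open Matrix Pool.Agent.Helper22.Sym

/-- A point about which the asymmetry of `K` is finite has a cube around it in `K`. -/
theorem cube_in (K : Set (Fin 3 → ℝ)) (hcv : Convex ℝ K) (hi : (interior K).Nonempty)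
    (c : Fin 3 → ℝ) (s : ℝ) (hs : 0 < s) (hsym : ∀ x ∈ K, c - s⁻¹ • (x - c) ∈ K) :
    ∃ e : ℝ, 0 < e ∧ ∀ w : Fin 3 → ℝ, (∀ i, |w i| < e) → c + w ∈ K := by
  obtain ⟨x₀, hx₀⟩ := hi
  obtain ⟨e, he, hball⟩ := Metric.isOpen_iff.mp isOpen_interior x₀ hx₀
  have h1s : 0 < 1 + s := by linarith
  refine ⟨e / (1 + s), by positivity, ?_⟩
  intro w hw
  have h1 : x₀ + (1 + s) • w ∈ K := by
    apply interior_subset
    apply hball
    rw [Metric.mem_ball, dist_eq_norm, add_sub_cancel_left, pi_norm_lt_iff he]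
    intro i
    rw [Pi.smul_apply, smul_eq_mul, Real.norm_eq_abs, abs_mul, abs_of_pos h1s]
    have := hw i
    rw [lt_div_iff₀ h1s] at this
    linarith
  have h2 := hsym x₀ (interior_subset hx₀)
  have h3 := hcv h1 h2 (show (0 : ℝ) ≤ 1 / (1 + s) by positivity)
    (show (0 : ℝ) ≤ s / (1 + s) by positivity) (by field_simp)
  convert h3 using 1
  funext i
  simp only [Pi.smul_apply, Pi.sub_apply, Pi.add_apply, smul_eq_mul]
  field_simp
  ring

/-- Existence of the maximal pair `(v, Q)`. -/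
theorem exists_max2 (K : Set (Fin 3 → ℝ)) (hK : IsCompact K) (c : Fin 3 → ℝ)
    (hc : ∃ e : ℝ, 0 < e ∧ ∀ w : Fin 3 → ℝ, (∀ i, |w i| < e) → c + w ∈ K) :
    ∃ (v : Fin 3 → ℝ) (Q : Matrix (Fin 3) (Fin 3) ℝ), Q.det ≠ 0 ∧ EllIn K c v Q ∧
      ∀ (v' : Fin 3 → ℝ) (Q' : Matrix (Fin 3) (Fin 3) ℝ), EllIn K c v' Q' → |Q'.det| ≤ |Q.det| := by
  obtain ⟨e, he, hball⟩ := hc
  set S : Set ((Fin 3 → ℝ) × Matrix (Fin 3) (Fin 3) ℝ) := {P | EllIn K c P.1 P.2} with hS
  obtain ⟨R, hR⟩ := hK.isBounded.exists_norm_le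
  have hSclosed : IsClosed S := by
    have : S = ⋂ (w : Fin 3 → ℝ) (τ : ℝ) (_ : w ⬝ᵥ w + τ ^ 2 ≤ 1),
        (fun P : (Fin 3 → ℝ) × Matrix (Fin 3) (Fin 3) ℝ => c + (1 + τ) • P.1 + P.2 *ᵥ w) ⁻¹' K := by
      ext P; simp [hS, EllIn]
    rw [this]
    refine isClosed_iInter fun w => isClosed_iInter fun τ => isClosed_iInter fun _ => ?_
    exact hK.isClosed.preimage
      ((continuous_const.add (continuous_fst.const_smul (1 + τ))).add
        (Continuous.matrix_mulVec continuous_snd continuous_const))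
  have hc1 : ∀ P ∈ S, ∀ i, |c i + P.1 i| ≤ R := by
    intro P hP i
    have hP' : EllIn K c P.1 P.2 := hP
    have h1 := hR _ (hP' 0 0 (by simp))
    have h2 : c + (1 + (0 : ℝ)) • P.1 + P.2 *ᵥ 0 = c + P.1 := by simp
    rw [h2] at h1
    have := (norm_le_pi_norm (c + P.1) i).trans h1
    simpa [Real.norm_eq_abs] using this
  have hSsub : S ⊆ (Set.pi Set.univ (fun i : Fin 3 => Set.Icc (-R - c i) (R - c i))) ×ˢ
      (Set.pi Set.univ (fun _ : Fin 3 => Set.pi Set.univ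
      (fun _ : Fin 3 => Set.Icc (-(2 * R)) (2 * R)))) := by
    intro P hP
    have hP' : EllIn K c P.1 P.2 := hP
    refine ⟨fun i _ => ?_, ?_⟩
    · have := abs_le.mp (hc1 P hP i)
      exact ⟨by linarith [this.1], by linarith [this.2]⟩
    intro i _ j _
    have h1 := hR _ (hP' (Pi.single j 1) 0 (by fin_cases j <;> simp [dotProduct, Fin.sum_univ_three]))
    rw [Matrix.mulVec_single_one] at h1
    have h2 : |c i + P.1 i + P.2 i j| ≤ R := by
      have := (norm_le_pi_norm (c + (1 + (0 : ℝ)) • P.1 + P.2.col j) i).trans h1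
      simpa [Real.norm_eq_abs] using this
    have h3 := hc1 P hP i
    rw [abs_le] at h2 h3
    exact ⟨by linarith, by linarith⟩
  have hScomp : IsCompact S := by
    refine IsCompact.of_isClosed_subset ?_ hSclosed hSsub
    exact (isCompact_univ_pi fun _ => isCompact_Icc).prod
      (isCompact_univ_pi fun _ => isCompact_univ_pi fun _ => isCompact_Icc)
  have hE : ((0 : Fin 3 → ℝ), (e / 2) • (1 : Matrix (Fin 3) (Fin 3) ℝ)) ∈ S := by
    show EllIn K c 0 ((e / 2) • (1 : Matrix (Fin 3) (Fin 3) ℝ))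
    intro u τ hu
    rw [Matrix.smul_mulVec, Matrix.one_mulVec, smul_zero, add_zero]
    apply hball
    intro i
    rw [Pi.smul_apply, smul_eq_mul, abs_mul, abs_of_pos (by positivity : 0 < e / 2)]
    have : |u i| ≤ 1 := by
      rw [abs_le_one_iff_mul_self_le_one]
      simp only [dotProduct, Fin.sum_univ_three] at hu
      have := sq_nonneg τ
      fin_cases i <;> simp <;>
        nlinarith [mul_self_nonneg (u 0), mul_self_nonneg (u 1), mul_self_nonneg (u 2)]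
    nlinarith
  obtain ⟨P, hPS, hPmax⟩ := hScomp.exists_isMaxOn ⟨_, hE⟩
    (f := fun P : (Fin 3 → ℝ) × Matrix (Fin 3) (Fin 3) ℝ => |P.2.det|)
    (Continuous.matrix_det continuous_snd).abs.continuousOn
  refine ⟨P.1, P.2, ?_, hPS, ?_⟩
  · have h1 : |((e / 2) • (1 : Matrix (Fin 3) (Fin 3) ℝ)).det| ≤ |P.2.det| := hPmax hE
    intro h0
    rw [h0, abs_zero] at h1
    have h2 : ((e / 2) • (1 : Matrix (Fin 3) (Fin 3) ℝ)).det = (e / 2) ^ 3 := by
      rw [Matrix.det_smul]; simp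
    rw [h2, abs_of_pos (by positivity)] at h1
    have : 0 < (e / 2) ^ 3 := by positivity
    linarith
  · intro v' Q' h
    exact hPmax (show (v', Q') ∈ S from h)

/-- **Flatness for bodies of bounded asymmetry.** A lattice-free convex body in dimension three whose
asymmetry about some point is at most `s` has squared lattice width at most `9 (1 + s) / 2`. -/
theorem mink_flat (K : Set (Fin 3 → ℝ)) (hK : IsCompact K) (hcv : Convex ℝ K)
    (hint : (interior K).Nonempty)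
    (hfree : ∀ z : Fin 3 → ℤ, (fun i => (z i : ℝ)) ∉ interior K)
    (c : Fin 3 → ℝ) (s : ℝ) (hs : 0 < s) (hsym : ∀ x ∈ K, c - s⁻¹ • (x - c) ∈ K) :
    ∃ u : Fin 3 → ℤ, u ≠ 0 ∧ ∀ x ∈ K, ∀ x' ∈ K,
      (∑ i, (x i - x' i) * (u i : ℝ)) ^ 2 ≤ 9 * (1 + s) / 2 := by
  have h1s : 0 < 1 + s := by linarith
  obtain ⟨v, Q, hQ, hball, hmax⟩ := exists_max2 K hK c (cube_in K hcv hint c s hs hsym)
  have hcen := mink_centre K hK hcv c v Q hQ hball hmax s hs hsym
  have hunit : IsUnit Q.det := isUnit_iff_ne_zero.mpr hQ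
  have hQ1 : Q⁻¹ * Q = 1 := Matrix.nonsing_inv_mul Q hunit
  have hQ2 : Q * Q⁻¹ = 1 := Matrix.mul_nonsing_inv Q hunit
  set S : Matrix (Fin 3) (Fin 3) ℝ := Q * Qᵀ + vecMulVec v v with hSdef
  have hQQ : (Q * Qᵀ).PosDef := by
    have h1 : (Q * Qᵀ).PosSemidef := by
      have := Matrix.posSemidef_self_mul_conjTranspose Q
      simpa [conjTranspose_eq_transpose_of_trivial] using this
    refine (Matrix.PosSemidef.posDef_iff_isUnit h1).2 ?_
    rw [Matrix.isUnit_iff_isUnit_det, isUnit_iff_ne_zero, det_mul, det_transpose]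
    exact mul_ne_zero hQ hQ
  have hvv : (vecMulVec v v).PosSemidef := by
    have := Matrix.posSemidef_vecMulVec_self_star v
    simpa using this
  have hSpd : S.PosDef := hQQ.add_posSemidef hvv
  have hSunit : IsUnit S.det := by
    have := hSpd.isUnit
    rwa [Matrix.isUnit_iff_isUnit_det] at this
  set G := S⁻¹ with hGdef
  have hG : G.PosDef := hSpd.inv
  have hSG : S * G = 1 := Matrix.mul_nonsing_inv S hSunit
  have hGS : G * S = 1 := Matrix.nonsing_inv_mul S hSunit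
  have hSmul : ∀ g : Fin 3 → ℝ, S *ᵥ g = Q *ᵥ (Qᵀ *ᵥ g) + (v ⬝ᵥ g) • v := by
    intro g
    rw [hSdef, Matrix.add_mulVec, Matrix.mulVec_mulVec]
    congr 1
    funext i
    simp only [Matrix.mulVec, vecMulVec_apply, dotProduct, Fin.sum_univ_three, Pi.smul_apply,
      smul_eq_mul]
    ring
  have hE : ∀ x, (x - (c + v)) ⬝ᵥ G *ᵥ (x - (c + v)) ≤ 1 → x ∈ K := by
    intro x hx
    set g := G *ᵥ (x - (c + v)) with hg
    have h1 : S *ᵥ g = x - (c + v) := by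
      rw [hg, Matrix.mulVec_mulVec, hSG, Matrix.one_mulVec]
    have h2 : (Qᵀ *ᵥ g) ⬝ᵥ (Qᵀ *ᵥ g) + (v ⬝ᵥ g) ^ 2 ≤ 1 := by
      have h3 : (x - (c + v)) ⬝ᵥ g = (Qᵀ *ᵥ g) ⬝ᵥ (Qᵀ *ᵥ g) + (v ⬝ᵥ g) ^ 2 := by
        rw [← h1, hSmul, add_dotProduct, smul_dotProduct]
        simp only [Matrix.mulVec, dotProduct, Fin.sum_univ_three, transpose_apply, smul_eq_mul]
        ring
      rw [← h3]; exact hx
    have h4 := hball (Qᵀ *ᵥ g) (v ⬝ᵥ g) h2
    have h5 : c + (1 + v ⬝ᵥ g) • v + Q *ᵥ (Qᵀ *ᵥ g) = x := by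
      have h6 := hSmul g
      rw [h1] at h6
      have h7 : Q *ᵥ (Qᵀ *ᵥ g) = x - (c + v) - (v ⬝ᵥ g) • v := by rw [h6]; abel
      rw [h7, add_smul, one_smul]
      abel
    rw [h5] at h4
    exact h4
  have hinv : ∀ x : Fin 3 → ℝ, c + Q *ᵥ (Q⁻¹ *ᵥ (x - c)) = x := by
    intro x
    rw [Matrix.mulVec_mulVec, hQ2, Matrix.one_mulVec]
    simp
  have hNform : ∀ y : Fin 3 → ℝ, y ⬝ᵥ ((6 * (1 + s)) • (Q * Qᵀ)) *ᵥ y
      = 6 * (1 + s) * ((Qᵀ *ᵥ y) ⬝ᵥ (Qᵀ *ᵥ y)) := by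
    intro y
    rw [Matrix.smul_mulVec, dotProduct_smul, ← mulVec_mulVec, dotProduct_mulVec,
      ← mulVec_transpose, smul_eq_mul]
  have hN : ∀ x ∈ K, ∀ x' ∈ K, ∀ y : Fin 3 → ℝ,
      (y ⬝ᵥ (x - x')) ^ 2 ≤ y ⬝ᵥ ((6 * (1 + s)) • (Q * Qᵀ)) *ᵥ y := by
    intro x hx x' hx' y
    rw [hNform]
    have h1 := hcen (Q⁻¹ *ᵥ (x - c)) (Q⁻¹ *ᵥ (x' - c))
      (by rw [hinv]; exact hx) (by rw [hinv]; exact hx')
    set w := Q⁻¹ *ᵥ (x - c) - Q⁻¹ *ᵥ (x' - c) with hw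
    have e : x - x' = Q *ᵥ w := by
      rw [hw, Matrix.mulVec_sub, Matrix.mulVec_mulVec, Matrix.mulVec_mulVec, hQ2, Matrix.one_mulVec,
        Matrix.one_mulVec]
      simp
    rw [e, dotProduct_mulVec, ← mulVec_transpose]
    have h3 := cs3 (Qᵀ *ᵥ y) w
    have h4 : 0 ≤ (Qᵀ *ᵥ y) ⬝ᵥ (Qᵀ *ᵥ y) := dot_self_nonneg3 _
    have h5 := mul_le_mul_of_nonneg_left h1 h4
    linarith
  obtain ⟨u, hu0, hu⟩ := criterion K G _ hG (c + v) hE hN hfree
  refine ⟨u, hu0, fun x hx x' hx' => ?_⟩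
  have h1 := hu x hx x' hx'
  have htr : (G * ((6 * (1 + s)) • (Q * Qᵀ))).trace = 6 * (1 + s) * (3 - v ⬝ᵥ G *ᵥ v) := by
    rw [Matrix.mul_smul, Matrix.trace_smul]
    have e1 : Q * Qᵀ = S - vecMulVec v v := by rw [hSdef]; abel
    rw [e1, Matrix.mul_sub, hGS, Matrix.trace_sub, Matrix.trace_one]
    have e2 : (G * vecMulVec v v).trace = v ⬝ᵥ G *ᵥ v := by
      rw [Matrix.trace_mul_comm]
      simp only [Matrix.trace, Matrix.diag, Matrix.mul_apply, vecMulVec_apply, Matrix.mulVec, dotProduct,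
        Fin.sum_univ_three]
      ring
    rw [e2]
    simp
  rw [htr] at h1
  have hv0 : 0 ≤ v ⬝ᵥ G *ᵥ v := by
    have := hG.posSemidef.dotProduct_mulVec_nonneg v
    simpa using this
  have h2 : (6 * (1 + s)) * (v ⬝ᵥ G *ᵥ v) ≥ 0 := by positivity
  linarith

end Pool.Agent.Helper15.SF
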